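import Pool.Agent.R391.ZZ.ZigZag

open MeasureTheory ProbabilityTheory Real Set Filter InformationTheory
open scoped ENNReal NNReal Topology

namespace Pool.Agent.R391.ZZ

/-- refreshment times -/
def T (r : ℕ → ℝ) (k : ℕ) : ℝ := ∑ i ∈ Finset.range k, r i

lemma T_succ (r : ℕ → ℝ) (k : ℕ) : T r (k + 1) = T r k + r k := Finset.sum_range_succ _ _

lemma T_mono {r : ℕ → ℝ} (hr : ∀ i, 0 < r i) : StrictMono (T r) :=
  strictMono_nat_of_lt_succ fun n => by rw [T_succ]; linarith [hr n]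

lemma T_zero (r : ℕ → ℝ) : T r 0 = 0 := by simp [T]

lemma count_eq {r : ℕ → ℝ} (hr : ∀ i, 0 < r i) {k : ℕ} {s : ℝ} (h1 : T r k ≤ s)
    (h2 : s < T r (k + 1)) : count r s = k := by
  have hset : ∀ n : ℕ, ∑ i ∈ Finset.range (n + 1), r i ≤ s ↔ n < k := by
    intro n
    change T r (n + 1) ≤ s ↔ n < k
    constructor
    · intro h
      have h3 : T r (n + 1) < T r (k + 1) := h.trans_lt h2
      have := (T_mono hr).lt_iff_lt.1 h3
      omega
    · intro h
      exact ((T_mono hr).monotone (by omega : n + 1 ≤ k)).trans h1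
  unfold count
  simp_rw [hset]
  rw [Nat.card_congr (Fin.equivSubtype (n := k)).symm]
  simp

/-- the successive velocities, up to signs -/
def mk (v₀ : ℝ) (g : ℕ → ℝ) (k : ℕ) : ℝ := if k = 0 then v₀ else g (k - 1)

/-- the time spent in the `k`-th interval before `t` -/
noncomputable def ell (r : ℕ → ℝ) (t : ℝ) (k : ℕ) : ℝ := min (T r (k + 1)) t - min (T r k) t

lemma ell_nonneg {r : ℕ → ℝ} (hr : ∀ i, 0 < r i) (t : ℝ) (k : ℕ) : 0 ≤ ell r t k := by
  unfold ell
  have := (T_mono hr).monotone (Nat.le_succ k)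
  have := min_le_min_right t this
  simp only [Nat.succ_eq_add_one] at this
  linarith

lemma sum_ell (r : ℕ → ℝ) {t : ℝ} (ht : 0 ≤ t) (n : ℕ) :
    ∑ k ∈ Finset.range n, ell r t k = min (T r n) t := by
  unfold ell
  rw [Finset.sum_range_sub (fun k => min (T r k) t), T_zero, min_eq_left ht, sub_zero]

lemma bps_path {U : ℝ → ℝ} {x₀ v₀ : ℝ} {r g e : ℕ → ℝ} {x v : ℝ → ℝ}
    (h : IsBPSPath U x₀ v₀ r g e x v) (hr : ∀ i, 0 < r i) {t : ℝ} (ht : 0 ≤ t) {n : ℕ}
    (hn : t < T r n) : |x t - x₀| ≤ ∑ k ∈ Finset.range n, |mk v₀ g k| * ell r t k := by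
  have hT0 : ∀ k, 0 ≤ T r k := fun k => by
    have := (T_mono hr).monotone (Nat.zero_le k)
    rwa [T_zero] at this
  have hint : ∀ k < n, IntervalIntegrable v volume (min (T r k) t) (min (T r (k + 1)) t) := by
    intro k _
    refine (h.integrable t ht).mono_set ?_
    rw [uIcc_of_le ht]
    refine uIcc_subset_Icc ⟨le_min (hT0 _) ht, min_le_right _ _⟩ ⟨le_min (hT0 _) ht, min_le_right _ _⟩
  have hsum := intervalIntegral.sum_integral_adjacent_intervals (a := fun k => min (T r k) t) hint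
  simp only [T_zero, min_eq_left ht, min_eq_right hn.le] at hsum
  rw [h.position t ht, add_sub_cancel_left, ← hsum]
  refine (Finset.abs_sum_le_sum_abs _ _).trans (Finset.sum_le_sum fun k hk => ?_)
  have hle : min (T r k) t ≤ min (T r (k + 1)) t :=
    min_le_min_right t ((T_mono hr).monotone (Nat.le_succ k))
  have hb := intervalIntegral.norm_integral_le_of_norm_le_const_ae (a := min (T r k) t)
    (b := min (T r (k + 1)) t) (f := v) (C := |mk v₀ g k|) (by
      have hae : ∀ᵐ s : ℝ, s ≠ min (T r (k + 1)) t := Measure.ae_ne volume _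
      filter_upwards [hae] with s hs1 hs
      rw [uIoc_of_le hle] at hs
      have hs2 : s < min (T r (k + 1)) t := lt_of_le_of_ne hs.2 hs1
      have hs3 : s < T r (k + 1) := hs2.trans_le (min_le_left _ _)
      have hs4 : s < t := hs2.trans_le (min_le_right _ _)
      have hs5 : T r k ≤ s := by
        rcases min_lt_iff.1 hs.1 with h5 | h5
        · exact h5.le
        · exact absurd h5 (not_lt.2 hs4.le)
      have hs0 : 0 ≤ s := (hT0 k).trans hs5
      rw [h.velocity s hs0, count_eq hr hs5 hs3, norm_mul, norm_pow, norm_neg, norm_one, one_pow,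
        one_mul, norm_eq_abs]
      rfl)
  rw [abs_of_nonneg (sub_nonneg.2 hle), norm_eq_abs] at hb
  exact hb

/-- the (extended) bound for the displacement -/
noncomputable def MM (t : ℝ) (z : ℝ × ((ℕ → ℝ) × ((ℕ → ℝ) × (ℕ → ℝ)))) : ℝ≥0∞ :=
  ∑' k, ENNReal.ofReal |mk z.1 z.2.2.1 k| * ENNReal.ofReal (ell z.2.1 t k)

lemma T_meas (k : ℕ) : Measurable fun r : ℕ → ℝ => T r k := by
  unfold T
  fun_prop

lemma ell_meas (t : ℝ) (k : ℕ) : Measurable fun r : ℕ → ℝ => ell r t k := by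
  unfold ell
  have := T_meas k
  have := T_meas (k + 1)
  fun_prop

lemma mk_meas (k : ℕ) : Measurable fun z : ℝ × (ℕ → ℝ) => mk z.1 z.2 k := by
  unfold mk
  split_ifs <;> fun_prop

lemma MM_meas (t : ℝ) : Measurable (MM t) := by
  unfold MM
  refine Measurable.tsum fun k => ?_
  have h1 : Measurable fun z : ℝ × ((ℕ → ℝ) × ((ℕ → ℝ) × (ℕ → ℝ))) => mk z.1 z.2.2.1 k :=
    (mk_meas k).comp (measurable_fst.prodMk
      (measurable_fst.comp (measurable_snd.comp measurable_snd)))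
  have h2 : Measurable fun z : ℝ × ((ℕ → ℝ) × ((ℕ → ℝ) × (ℕ → ℝ))) => ell z.2.1 t k :=
    (ell_meas t k).comp (measurable_fst.comp measurable_snd)
  fun_prop

lemma abs_gauss : ∫⁻ x, ENNReal.ofReal |x| ∂(gaussianReal 0 1) ≤ 1 := by
  have h2 : Integrable (fun x : ℝ => x ^ 2) (gaussianReal 0 1) := by
    have := (memLp_id_gaussianReal' (μ := 0) (v := 1) 2 (by norm_num)).integrable_sq
    simpa using this
  have h1 : Integrable (fun x : ℝ => |x|) (gaussianReal 0 1) := by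
    have := (memLp_id_gaussianReal' (μ := 0) (v := 1) 1 (by norm_num)).integrable le_rfl
    simpa using this.abs
  rw [← ofReal_integral_eq_lintegral_ofReal h1 (Eventually.of_forall fun x => abs_nonneg x),
    ENNReal.ofReal_le_one]
  have hvar : ∫ x, x ^ 2 ∂(gaussianReal 0 1) = 1 := by
    have h3 := variance_id_gaussianReal (μ := 0) (v := 1)
    rw [variance_eq_sub (memLp_id_gaussianReal' (μ := 0) (v := 1) 2 (by norm_num))] at h3
    have h4 : ∫ x, id x ∂(gaussianReal 0 1) = 0 := by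
      simp
    rw [h4] at h3
    simpa using h3
  calc ∫ x, |x| ∂(gaussianReal 0 1) ≤ ∫ x, (1 / 2 * x ^ 2 + 1 / 2) ∂(gaussianReal 0 1) := by
        apply integral_mono h1 ((h2.const_mul _).add (integrable_const _))
        intro x
        simp only [Pi.add_apply]
        nlinarith [sq_nonneg (|x| - 1), sq_abs x]
    _ = 1 := by
        rw [integral_add (h2.const_mul _) (integrable_const _), integral_const_mul, hvar]
        simp
        norm_num

/-- refreshment gaps -/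
noncomputable def WR (γ : ℝ) : Measure (ℕ → ℝ) := Measure.infinitePi fun _ : ℕ => expMeasure γ

/-- the new velocities and the bounce clock -/
noncomputable def WGE : Measure ((ℕ → ℝ) × (ℕ → ℝ)) :=
  (Measure.infinitePi fun _ : ℕ => gaussianReal 0 1).prod
    (Measure.infinitePi fun _ : ℕ => expMeasure 1)

lemma exp_pos_ae {γ : ℝ} (hγ : 0 < γ) : ∀ᵐ x ∂(expMeasure γ), 0 < x := by
  have := isProbabilityMeasure_expMeasure hγ
  have h := cdf_expMeasure_eq hγ 0
  simp at h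
  rw [cdf_eq_real] at h
  rw [ae_iff]
  have e : {a : ℝ | ¬ 0 < a} = Iic 0 := by ext; simp
  rw [e]
  exact (measureReal_eq_zero_iff).1 h

instance {γ : ℝ} [Fact (0 < γ)] : IsProbabilityMeasure (expMeasure γ) :=
  isProbabilityMeasure_expMeasure Fact.out

lemma WR_pos {γ : ℝ} (hγ : 0 < γ) : ∀ᵐ r ∂(WR γ), ∀ i, 0 < r i := by
  have : Fact (0 < γ) := ⟨hγ⟩
  rw [ae_all_iff]
  intro i
  have h1 := (measurePreserving_eval_infinitePi (fun _ : ℕ => expMeasure γ) i)
  exact h1.quasiMeasurePreserving.ae (exp_pos_ae hγ)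

lemma exp_Iic_one {γ : ℝ} (hγ : 0 < γ) : expMeasure γ (Iic 1) < 1 := by
  have := isProbabilityMeasure_expMeasure hγ
  have h := cdf_expMeasure_eq hγ 1
  simp only [zero_le_one, if_true, mul_one] at h
  rw [cdf_eq_real] at h
  rw [← ENNReal.ofReal_toReal (measure_ne_top (expMeasure γ) (Iic 1))]
  change ENNReal.ofReal ((expMeasure γ).real (Iic 1)) < 1
  rw [h, ← ENNReal.ofReal_one, ENNReal.ofReal_lt_ofReal_iff one_pos]
  have := Real.exp_pos (-γ)
  linarith

lemma WR_io {γ : ℝ} (hγ : 0 < γ) : ∀ᵐ r ∂(WR γ), ∀ n : ℕ, ∃ i, n ≤ i ∧ 1 < r i := by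
  have : Fact (0 < γ) := ⟨hγ⟩
  rw [ae_all_iff]
  intro n
  rw [ae_iff]
  have e : {r : ℕ → ℝ | ¬ ∃ i, n ≤ i ∧ 1 < r i} = {r | ∀ i, n ≤ i → r i ≤ 1} := by
    ext r
    simp
  rw [e]
  apply le_antisymm _ (zero_le)
  have hb : ∀ m : ℕ, WR γ {r | ∀ i, n ≤ i → r i ≤ 1} ≤ (expMeasure γ (Iic 1)) ^ m := by
    intro m
    calc WR γ {r | ∀ i, n ≤ i → r i ≤ 1}
        ≤ WR γ (Set.pi ((Finset.Ico n (n + m) : Finset ℕ) : Set ℕ) fun _ => Iic 1) := by
          apply measure_mono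
          intro r hr i hi
          exact hr i (Finset.mem_Ico.1 hi).1
      _ = (expMeasure γ (Iic 1)) ^ m := by
          rw [WR, Measure.infinitePi_pi _ (fun _ _ => measurableSet_Iic)]
          simp
  exact ge_of_tendsto (ENNReal.tendsto_pow_atTop_nhds_zero_of_lt_one (exp_Iic_one hγ))
    (Eventually.of_forall hb)

lemma T_unbounded {r : ℕ → ℝ} (hr : ∀ i, 0 < r i) (hio : ∀ n : ℕ, ∃ i, n ≤ i ∧ 1 < r i)
    (t : ℝ) : ∃ n, t < T r n := by
  have h : ∀ K : ℕ, ∃ n, (K : ℝ) ≤ T r n := by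
    intro K
    induction K with
    | zero => exact ⟨0, by simp [T_zero]⟩
    | succ K ih =>
      obtain ⟨n, hn⟩ := ih
      obtain ⟨i, hi, hi1⟩ := hio n
      refine ⟨i + 1, ?_⟩
      rw [T_succ]
      have := (T_mono hr).monotone hi
      push_cast
      linarith
  obtain ⟨K, hK⟩ := exists_nat_gt t
  obtain ⟨n, hn⟩ := h K
  exact ⟨n, hK.trans_le hn⟩

instance : IsProbabilityMeasure WGE := by
  have : Fact ((0 : ℝ) < 1) := ⟨one_pos⟩
  unfold WGE
  infer_instance

lemma WR_prob {γ : ℝ} (hγ : 0 < γ) : IsProbabilityMeasure (WR γ) := by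
  have : Fact (0 < γ) := ⟨hγ⟩
  unfold WR
  infer_instance

lemma lint_le {γ : ℝ} (hγ : 0 < γ) {t : ℝ} (ht : 0 ≤ t) :
    ∫⁻ z, MM t z ∂((gaussianReal 0 1).prod ((WR γ).prod WGE)) ≤ ENNReal.ofReal t := by
  have := WR_prob hγ
  have hmk : ∀ k, Measurable fun z : ℝ × ((ℕ → ℝ) × ((ℕ → ℝ) × (ℕ → ℝ))) => mk z.1 z.2.2.1 k :=
    fun k => (mk_meas k).comp (measurable_fst.prodMk
      (measurable_fst.comp (measurable_snd.comp measurable_snd)))
  have hel : ∀ k, Measurable fun z : ℝ × ((ℕ → ℝ) × ((ℕ → ℝ) × (ℕ → ℝ))) => ell z.2.1 t k :=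
    fun k => (ell_meas t k).comp (measurable_fst.comp measurable_snd)
  have hel' : ∀ k, Measurable fun r : ℕ → ℝ => ENNReal.ofReal (ell r t k) := fun k =>
    (ell_meas t k).ennreal_ofReal
  unfold MM
  rw [lintegral_tsum (fun k => by
    have h1 := hmk k
    have h2 := hel k
    fun_prop)]
  have hk : ∀ k, ∫⁻ z : ℝ × ((ℕ → ℝ) × ((ℕ → ℝ) × (ℕ → ℝ))), ENNReal.ofReal |mk z.1 z.2.2.1 k| *
      ENNReal.ofReal (ell z.2.1 t k) ∂((gaussianReal 0 1).prod ((WR γ).prod WGE)) ≤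
      ∫⁻ r, ENNReal.ofReal (ell r t k) ∂(WR γ) := by
    intro k
    rcases k with _ | k
    · simp only [mk, if_true]
      rw [lintegral_prod_mul (f := fun x : ℝ => ENNReal.ofReal |x|)
        (g := fun z : (ℕ → ℝ) × ((ℕ → ℝ) × (ℕ → ℝ)) => ENNReal.ofReal (ell z.1 t 0))
        (by fun_prop) ((hel' 0).comp measurable_fst).aemeasurable]
      rw [lintegral_prod (fun z : (ℕ → ℝ) × ((ℕ → ℝ) × (ℕ → ℝ)) => ENNReal.ofReal (ell z.1 t 0))
        ((hel' 0).comp measurable_fst).aemeasurable]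
      simp only [lintegral_const, measure_univ, mul_one]
      calc _ ≤ 1 * ∫⁻ r, ENNReal.ofReal (ell r t 0) ∂(WR γ) := by
            gcongr
            exact abs_gauss
        _ = _ := one_mul _
    · simp only [mk, Nat.add_one_ne_zero, if_false, Nat.add_sub_cancel]
      have hgk : Measurable fun y : (ℕ → ℝ) × (ℕ → ℝ) => ENNReal.ofReal |y.1 k| := by fun_prop
      have hm2 : Measurable fun z : ℝ × ((ℕ → ℝ) × ((ℕ → ℝ) × (ℕ → ℝ))) =>
          ENNReal.ofReal |z.2.2.1 k| * ENNReal.ofReal (ell z.2.1 t (k + 1)) := by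
        have h2 := hel (k + 1)
        fun_prop
      rw [lintegral_prod _ hm2.aemeasurable]
      simp only [lintegral_const, measure_univ, mul_one]
      have e1 : ∫⁻ y : (ℕ → ℝ) × ((ℕ → ℝ) × (ℕ → ℝ)), ENNReal.ofReal |y.2.1 k| *
          ENNReal.ofReal (ell y.1 t (k + 1)) ∂((WR γ).prod WGE) =
          (∫⁻ r, ENNReal.ofReal (ell r t (k + 1)) ∂(WR γ)) *
            ∫⁻ y : (ℕ → ℝ) × (ℕ → ℝ), ENNReal.ofReal |y.1 k| ∂WGE := by
        rw [← lintegral_prod_mul (hel' (k + 1)).aemeasurable hgk.aemeasurable]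
        simp only [mul_comm]
      rw [e1]
      have e2 : ∫⁻ y : (ℕ → ℝ) × (ℕ → ℝ), ENNReal.ofReal |y.1 k| ∂WGE ≤ 1 := by
        have : Fact ((0 : ℝ) < 1) := ⟨one_pos⟩
        unfold WGE
        rw [lintegral_prod _ hgk.aemeasurable]
        simp only [lintegral_const, measure_univ, mul_one]
        have h3 := (measurePreserving_eval_infinitePi (fun _ : ℕ => gaussianReal 0 1) k)
        have h4 := h3.lintegral_comp (f := fun x : ℝ => ENNReal.ofReal |x|) (by fun_prop)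
        simp only [Function.eval] at h4
        rw [h4]
        exact abs_gauss
      calc _ ≤ (∫⁻ r, ENNReal.ofReal (ell r t (k + 1)) ∂(WR γ)) * 1 := by gcongr
        _ = _ := mul_one _
  calc ∑' k, ∫⁻ z : ℝ × ((ℕ → ℝ) × ((ℕ → ℝ) × (ℕ → ℝ))), ENNReal.ofReal |mk z.1 z.2.2.1 k| *
      ENNReal.ofReal (ell z.2.1 t k) ∂((gaussianReal 0 1).prod ((WR γ).prod WGE))
      ≤ ∑' k, ∫⁻ r, ENNReal.ofReal (ell r t k) ∂(WR γ) := ENNReal.tsum_le_tsum hk
    _ = ∫⁻ r, ∑' k, ENNReal.ofReal (ell r t k) ∂(WR γ) :=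
        (lintegral_tsum fun k => (hel' k).aemeasurable).symm
    _ ≤ ∫⁻ _r, ENNReal.ofReal t ∂(WR γ) := by
        apply lintegral_mono_ae
        filter_upwards [WR_pos hγ] with r hr
        rw [ENNReal.tsum_eq_iSup_nat]
        apply iSup_le
        intro n
        rw [← ENNReal.ofReal_sum_of_nonneg (fun k _ => ell_nonneg hr t k), sum_ell r ht]
        exact ENNReal.ofReal_le_ofReal (min_le_right _ _)
    _ = ENNReal.ofReal t := by simp

/-- With probability at least one half the displacement is at most `2t`. -/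
lemma half {γ : ℝ} (hγ : 0 < γ) {t : ℝ} (ht : 0 < t) :
    (1 / 2 : ℝ≥0∞) ≤ ((gaussianReal 0 1).prod ((WR γ).prod WGE))
      {z | MM t z ≤ ENNReal.ofReal (2 * t)} := by
  have := WR_prob hγ
  set Q := (gaussianReal 0 1).prod ((WR γ).prod WGE) with hQ
  have hmeas : MeasurableSet {z | MM t z ≤ ENNReal.ofReal (2 * t)} :=
    measurableSet_le (MM_meas t) measurable_const
  have h1 : ENNReal.ofReal (2 * t) * Q {z | ENNReal.ofReal (2 * t) ≤ MM t z} ≤ ENNReal.ofReal t :=
    (mul_meas_ge_le_lintegral (MM_meas t) _).trans (lint_le hγ ht.le)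
  have h2 : Q {z | MM t z ≤ ENNReal.ofReal (2 * t)}ᶜ ≤ 1 / 2 := by
    have h3 : Q {z | MM t z ≤ ENNReal.ofReal (2 * t)}ᶜ ≤ Q {z | ENNReal.ofReal (2 * t) ≤ MM t z} := by
      apply measure_mono
      intro z hz
      simp only [mem_compl_iff, mem_ofPred_eq, not_le] at hz
      exact hz.le
    refine h3.trans ?_
    have h4 : ENNReal.ofReal (2 * t) = 2 * ENNReal.ofReal t := by
      rw [ENNReal.ofReal_mul (by norm_num)]
      simp
    rw [h4] at h1
    have h5 : ENNReal.ofReal t ≠ 0 := by simpa using ht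
    have h6 : ENNReal.ofReal t ≠ ∞ := ENNReal.ofReal_ne_top
    have h7 : ENNReal.ofReal t * (2 * Q {z | 2 * ENNReal.ofReal t ≤ MM t z}) ≤
        ENNReal.ofReal t * 1 := by
      rw [mul_one]
      refine le_trans (le_of_eq ?_) h1
      ring
    have h8 := (ENNReal.mul_le_mul_iff_right h5 h6).1 h7
    rw [h4, ENNReal.le_div_iff_mul_le (by norm_num) (by norm_num), mul_comm]
    exact h8
  have h3 := prob_compl_eq_one_sub (μ := Q) hmeas
  rw [h3] at h2
  have h4 : (1 : ℝ≥0∞) ≤ 1 / 2 + Q {z | MM t z ≤ ENNReal.ofReal (2 * t)} :=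
    tsub_le_iff_right.1 h2
  have h5 : (1 : ℝ≥0∞) / 2 + 1 / 2 ≤ 1 / 2 + Q {z | MM t z ≤ ENNReal.ofReal (2 * t)} := by
    rwa [ENNReal.add_halves]
  exact (ENNReal.add_le_add_iff_left (by norm_num)).1 h5

end Pool.Agent.R391.ZZ
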