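import Pool.Agent.R391.ZZ.BPS

open MeasureTheory ProbabilityTheory Real Set Filter InformationTheory
open scoped ENNReal NNReal Topology

namespace Pool.Agent.R391.ZZ

/-- all the driving data of the BPS -/
abbrev Dat : Type := (ℝ × ℝ) × ((ℕ → ℝ) × ((ℕ → ℝ) × (ℕ → ℝ)))

lemma dat_bound {γ a : ℝ} (hγ : 0 < γ) (ha : 0 < a) {t : ℝ} (ht : 0 < t) :
    ENNReal.ofReal (1 / 4 * rexp (-(4 * a * t))) ≤
      (((lap a).prod (gaussianReal 0 1)).prod ((WR γ).prod WGE))
        {z : Dat | 4 * t ≤ z.1.1 ∧ MM t (z.1.2, z.2) ≤ ENNReal.ofReal (2 * t)} := by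
  have := WR_prob hγ
  have := lap_prob ha
  have hmp := Measure.prodAssoc_prod (μ := lap a) (ν := gaussianReal 0 1)
    (τ := (WR γ).prod WGE)
  have hset : {z : Dat | 4 * t ≤ z.1.1 ∧ MM t (z.1.2, z.2) ≤ ENNReal.ofReal (2 * t)} =
      MeasurableEquiv.prodAssoc ⁻¹' (Ici (4 * t) ×ˢ {z | MM t z ≤ ENNReal.ofReal (2 * t)}) := by
    ext z
    rfl
  have hmeas : MeasurableSet {z | MM t z ≤ ENNReal.ofReal (2 * t)} :=
    measurableSet_le (MM_meas t) measurable_const
  rw [hset, ← Measure.map_apply (MeasurableEquiv.prodAssoc).measurable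
    (measurableSet_Ici.prod hmeas), hmp, Measure.prod_prod]
  have h1 : ENNReal.ofReal (1 / 2 * rexp (-(4 * a * t))) = lap a (Ici (4 * t)) := by
    rw [← ENNReal.ofReal_toReal (measure_ne_top (lap a) (Ici (4 * t)))]
    congr 1
    have := lap_tail ha (s := 4 * t) (by linarith)
    rw [measureReal_def] at this
    rw [this]
    congr 2
    ring
  rw [← h1]
  calc ENNReal.ofReal (1 / 4 * rexp (-(4 * a * t)))
      = ENNReal.ofReal (1 / 2 * rexp (-(4 * a * t))) * ENNReal.ofReal (1 / 2) := by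
        rw [← ENNReal.ofReal_mul (by positivity)]
        congr 1
        ring
    _ ≤ _ := by
        gcongr
        refine le_trans (le_of_eq ?_) (half hγ ht)
        rw [ENNReal.ofReal_div_of_pos (by norm_num)]
        simp

theorem bps_no_decay {γ a lam : ℝ} (hγ : 0 < γ) (ha : 0 < a) (hl : 4 * a < lam) {Ω : Type}
    [MeasurableSpace Ω] {P : Measure Ω} {X V : ℝ → Ω → ℝ}
    (h : IsBPS U2 γ ((lap a).prod (gaussianReal 0 1)) P X V) :
    ¬ ∃ C : ℝ, ∀ t, 0 ≤ t → klDiv (P.map fun ω => (X t ω, V t ω))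
      ((gibbs U2).prod (gaussianReal 0 1)) ≤ ENNReal.ofReal (C * rexp (-(lam * t))) := by
  obtain ⟨R, G, E, hR, hG, hE, hlaw, hpath⟩ := h.clock
  have hla := lap_prob ha
  have hWR := WR_prob hγ
  have hX := h.measX
  have hV := h.measV
  have hm : Measurable fun ω => ((X 0 ω, V 0 ω), (fun n => R n ω), (fun n => G n ω),
      fun n => E n ω) :=
    ((hX 0).prodMk (hV 0)).prodMk ((measurable_pi_iff.2 hR).prodMk ((measurable_pi_iff.2 hG).prodMk
      (measurable_pi_iff.2 hE)))
  change P.map (fun ω => ((X 0 ω, V 0 ω), (fun n => R n ω), (fun n => G n ω), fun n => E n ω)) =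
    ((lap a).prod (gaussianReal 0 1)).prod ((WR γ).prod WGE) at hlaw
  have hP : IsProbabilityMeasure P := prob_of_map hm hlaw
  rw [gibbs_U2]
  have hmt : ∀ t, Measurable fun ω => (X t ω, V t ω) := fun t => (hX t).prodMk (hV t)
  -- almost sure properties of the refreshment times
  have hRm : Measurable fun ω => (fun n => R n ω) := measurable_pi_iff.2 hR
  have hRlaw : P.map (fun ω => (fun n => R n ω)) = WR γ := by
    have h1 : (fun ω => (fun n => R n ω)) = (fun z : Dat => z.2.1) ∘
        fun ω => ((X 0 ω, V 0 ω), (fun n => R n ω), (fun n => G n ω), fun n => E n ω) := rfl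
    rw [h1, ← Measure.map_map (by fun_prop) hm, hlaw]
    have h2 : (fun z : Dat => z.2.1) = Prod.fst ∘ Prod.snd := rfl
    rw [h2, ← Measure.map_map measurable_fst measurable_snd]
    have h3 : Measure.map Prod.snd (((lap a).prod (gaussianReal 0 1)).prod ((WR γ).prod WGE)) =
      (WR γ).prod WGE := Measure.snd_prod
    rw [h3]
    exact Measure.fst_prod
  have hRpos : ∀ᵐ ω ∂P, ∀ i, 0 < R i ω := by
    have := WR_pos hγ
    rw [← hRlaw] at this
    exact ae_of_ae_map hRm.aemeasurable this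
  have hRio : ∀ᵐ ω ∂P, ∀ n : ℕ, ∃ i, n ≤ i ∧ 1 < R i ω := by
    have := WR_io hγ
    rw [← hRlaw] at this
    exact ae_of_ae_map hRm.aemeasurable this
  refine no_decay (κ := 1 / 4) (a := 4 * a) (β := 2) (fun t => P.map fun ω => (X t ω, V t ω))
    _ (fun t _ => Measure.isProbabilityMeasure_map (hmt t).aemeasurable) (by norm_num)
    (by norm_num) hl fun t ht => ⟨Ici (2 * t) ×ˢ univ, measurableSet_Ici.prod MeasurableSet.univ,
      ?_, ?_⟩
  · have hb := dat_bound hγ ha ht
    rw [← hlaw] at hb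
    have hmeasD : MeasurableSet {z : Dat | 4 * t ≤ z.1.1 ∧
        MM t (z.1.2, z.2) ≤ ENNReal.ofReal (2 * t)} := by
      have hm1 : Measurable fun z : Dat => z.1.1 := by fun_prop
      have hm2 : Measurable fun z : Dat => MM t (z.1.2, z.2) := (MM_meas t).comp (by fun_prop)
      exact (measurableSet_le measurable_const hm1).inter (measurableSet_le hm2 measurable_const)
    rw [Measure.map_apply hm hmeasD] at hb
    rw [map_measureReal_apply (hmt t) (measurableSet_Ici.prod MeasurableSet.univ), measureReal_def,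
      ← ENNReal.ofReal_le_iff_le_toReal (measure_ne_top _ _)]
    refine hb.trans (measure_mono_ae ?_)
    filter_upwards [hpath, hRpos, hRio] with ω h1 h2 h3 h4
    obtain ⟨n, hn⟩ := T_unbounded h2 h3 t
    have h5 := bps_path h1 h2 ht.le hn
    have h6 : 4 * t ≤ X 0 ω := h4.1
    have h7 : MM t (V 0 ω, (fun n => R n ω), (fun n => G n ω), fun n => E n ω) ≤
      ENNReal.ofReal (2 * t) := h4.2
    have h8 : ENNReal.ofReal |X t ω - X 0 ω| ≤ ENNReal.ofReal (2 * t) := by
      refine le_trans ?_ h7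
      calc ENNReal.ofReal |X t ω - X 0 ω| ≤ ENNReal.ofReal (∑ k ∈ Finset.range n,
            |mk (V 0 ω) (fun n => G n ω) k| * ell (fun n => R n ω) t k) :=
            ENNReal.ofReal_le_ofReal h5
        _ = ∑ k ∈ Finset.range n, ENNReal.ofReal |mk (V 0 ω) (fun n => G n ω) k| *
              ENNReal.ofReal (ell (fun n => R n ω) t k) := by
            rw [ENNReal.ofReal_sum_of_nonneg (fun k _ => mul_nonneg (abs_nonneg _)
              (ell_nonneg h2 t k))]
            exact Finset.sum_congr rfl fun k _ => ENNReal.ofReal_mul (abs_nonneg _)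
        _ ≤ MM t (V 0 ω, (fun n => R n ω), (fun n => G n ω), fun n => E n ω) :=
            ENNReal.sum_le_tsum _
    have h9 : |X t ω - X 0 ω| ≤ 2 * t := (ENNReal.ofReal_le_ofReal_iff (by linarith)).1 h8
    have h10 := (abs_le.1 h9).1
    refine ⟨?_, mem_univ _⟩
    change 2 * t ≤ X t ω
    linarith
  · rw [measureReal_prod_prod, probReal_univ, mul_one]
    refine (gauss_tail (by linarith)).trans (le_of_eq ?_)
    congr 1
    ring

end Pool.Agent.R391.ZZ
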