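import Mathlib

open MeasureTheory ProbabilityTheory Real Set InformationTheory
open scoped ENNReal NNReal

namespace Pool.Agent.R391.ZZ

/-- The probability measure `π(dx) ∝ exp (-U x) dx` on the line. -/
noncomputable def gibbs (U : ℝ → ℝ) : Measure ℝ := volume.tilted fun x => -U x

/-- The logarithmic Sobolev inequality for a measure on the line: for some constant `C`, every
`C¹` function `f` with `∫ f'² dπ < ∞` has `f²` and `f² log f²` integrable and
`Ent_π(f²) ≤ 2 C ∫ f'² dπ`. -/
def LogSobolev (μ : Measure ℝ) : Prop :=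
  ∃ C : ℝ, ∀ f : ℝ → ℝ, ContDiff ℝ 1 f → Integrable (fun x => deriv f x ^ 2) μ →
    Integrable (fun x => f x ^ 2) μ ∧ Integrable (fun x => f x ^ 2 * log (f x ^ 2)) μ ∧
      ∫ x, f x ^ 2 * log (f x ^ 2) ∂μ - (∫ x, f x ^ 2 ∂μ) * log (∫ x, f x ^ 2 ∂μ)
        ≤ 2 * C * ∫ x, deriv f x ^ 2 ∂μ

/-- The standing assumptions on a potential on the line: `U` is `C²`, `exp (-U)` is integrable,
the second derivative is bounded. -/
def Admissible (U : ℝ → ℝ) : Prop :=
  ContDiff ℝ 2 U ∧ Integrable (fun x => rexp (-U x)) ∧ ∃ M : ℝ, ∀ x, |deriv (deriv U) x| ≤ M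

/-- The number of the points `e 0, e 0 + e 1, e 0 + e 1 + e 2, …` that are at most `a`. -/
noncomputable def count (e : ℕ → ℝ) (a : ℝ) : ℕ :=
  Nat.card {n : ℕ // ∑ i ∈ Finset.range (n + 1), e i ≤ a}

/-- A path `(x, v)` of the one-dimensional Zig-Zag process with potential `U` and refreshment
rate `γ`, started at `(x₀, v₀)`, driven by the gaps `e` of a unit rate clock: the position moves
with velocity `v`, and the velocity changes its sign each time the integral of the switching rate
`(v U'(x))⁺ + γ` reaches the next point `e 0 + ⋯ + e n` of the clock. -/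
structure IsZigZagPath (U : ℝ → ℝ) (γ x₀ v₀ : ℝ) (e : ℕ → ℝ) (x v : ℝ → ℝ) : Prop where
  integrable : ∀ t, 0 ≤ t → IntervalIntegrable v volume 0 t
  position : ∀ t, 0 ≤ t → x t = x₀ + ∫ s in (0 : ℝ)..t, v s
  velocity : ∀ t, 0 ≤ t →
    v t = (-1) ^ count e (∫ s in (0 : ℝ)..t, (max (v s * deriv U (x s)) 0 + γ)) * v₀

/-- A path `(x, v)` of the one-dimensional Bouncy Particle Sampler with potential `U`, started at
`(x₀, v₀)`. The refreshment times are the points `r 0, r 0 + r 1, …`; at the time
`r 0 + ⋯ + r k` the velocity is replaced by `g k`. Between refreshments the velocity is reflected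
(in dimension one: changes its sign) each time the integral over `[0, t]` of the bounce rate
`(v U'(x))⁺` reaches the next point `e 0 + ⋯ + e n` of a unit rate clock. So at time `t`, if `k`
refreshments have happened, the last one at time `R`, then `v t` is `(-1)^(number of bounces in
(R, t])` times `g (k - 1)` (times `v₀` if `k = 0`, in which case `R = 0`). -/
structure IsBPSPath (U : ℝ → ℝ) (x₀ v₀ : ℝ) (r g e : ℕ → ℝ) (x v : ℝ → ℝ) : Prop where
  integrable : ∀ t, 0 ≤ t → IntervalIntegrable v volume 0 t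
  position : ∀ t, 0 ≤ t → x t = x₀ + ∫ s in (0 : ℝ)..t, v s
  velocity : ∀ t, 0 ≤ t →
    v t = (-1) ^ (count e (∫ s in (0 : ℝ)..t, max (v s * deriv U (x s)) 0) -
        count e (∫ s in (0 : ℝ)..(∑ i ∈ Finset.range (count r t), r i),
          max (v s * deriv U (x s)) 0)) *
      (if count r t = 0 then v₀ else g (count r t - 1))

/-- `(X, V)` is a one-dimensional Zig-Zag process with potential `U` and refreshment rate `γ`,
with initial law `p₀`: it follows almost surely the Zig-Zag paths driven by a unit rate Poisson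
clock (independent `Exp(1)` gaps) independent of the initial state. -/
structure IsZigZag (U : ℝ → ℝ) (γ : ℝ) (p₀ : Measure (ℝ × ℝ)) {Ω : Type} [MeasurableSpace Ω]
    (P : Measure Ω) (X V : ℝ → Ω → ℝ) : Prop where
  measX : ∀ t, Measurable (X t)
  measV : ∀ t, Measurable (V t)
  clock : ∃ E : ℕ → Ω → ℝ, (∀ n, Measurable (E n)) ∧
    P.map (fun ω => ((X 0 ω, V 0 ω), fun n => E n ω)) =
      p₀.prod (Measure.infinitePi fun _ : ℕ => expMeasure 1) ∧
    ∀ᵐ ω ∂P, IsZigZagPath U γ (X 0 ω) (V 0 ω) (fun n => E n ω) (fun t => X t ω) fun t => V t ω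

/-- `(X, V)` is a one-dimensional Bouncy Particle Sampler with potential `U` and refreshment rate
`γ`, with initial law `p₀`: it follows almost surely the paths driven by refreshment times with
independent `Exp(γ)` gaps, independent standard Gaussian new velocities and a unit rate Poisson
clock for the bounces, all independent of each other and of the initial state. -/
structure IsBPS (U : ℝ → ℝ) (γ : ℝ) (p₀ : Measure (ℝ × ℝ)) {Ω : Type} [MeasurableSpace Ω]
    (P : Measure Ω) (X V : ℝ → Ω → ℝ) : Prop where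
  measX : ∀ t, Measurable (X t)
  measV : ∀ t, Measurable (V t)
  clock : ∃ R G E : ℕ → Ω → ℝ, (∀ n, Measurable (R n)) ∧ (∀ n, Measurable (G n)) ∧
    (∀ n, Measurable (E n)) ∧
    P.map (fun ω => ((X 0 ω, V 0 ω), (fun n => R n ω), (fun n => G n ω), fun n => E n ω)) =
      p₀.prod ((Measure.infinitePi fun _ : ℕ => expMeasure γ).prod
        ((Measure.infinitePi fun _ : ℕ => gaussianReal 0 1).prod
          (Measure.infinitePi fun _ : ℕ => expMeasure 1))) ∧
    ∀ᵐ ω ∂P, IsBPSPath U (X 0 ω) (V 0 ω) (fun n => R n ω) (fun n => G n ω) (fun n => E n ω)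
      (fun t => X t ω) fun t => V t ω

/-- The uniform law on `{-1, 1}`. -/
noncomputable def rademacher : Measure ℝ :=
  (2 : ℝ≥0∞)⁻¹ • (Measure.dirac 1 + Measure.dirac (-1))

/-- Exponential tails of a law of `(x, v)`: `∫ exp (a |x|) dp₀ < ∞` for some `a > 0`. -/
def ExpTails (p₀ : Measure (ℝ × ℝ)) : Prop :=
  ∃ a : ℝ, 0 < a ∧ Integrable (fun p => rexp (a * |p.1|)) p₀

end Pool.Agent.R391.ZZ
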