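import Pool.Agent.R391.ZZ.LSI2

open MeasureTheory ProbabilityTheory Real Set Filter InformationTheory
open scoped ENNReal NNReal Topology

namespace Pool.Agent.R391.ZZ

/-- the quadratic potential -/
noncomputable def U2 (x : ℝ) : ℝ := x ^ 2 / 2

lemma deriv_U2 : deriv U2 = fun x => x := by
  ext x
  have : HasDerivAt U2 x x := by
    refine (((hasDerivAt_id' x).pow 2).div_const 2).congr_deriv ?_
    norm_num
  exact this.deriv

lemma gibbs_U2 : gibbs U2 = gaussianReal 0 1 := by
  have hZ : ∫ x : ℝ, rexp (-U2 x) = √(2 * Real.pi) := by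
    have := integral_gaussian (1 / 2)
    rw [show Real.pi / (1 / 2) = 2 * Real.pi by ring] at this
    rw [← this]
    congr 1
    ext x
    congr 1
    simp only [U2]
    ring
  rw [gibbs, gaussianReal_of_var_ne_zero 0 (by norm_num : (1 : ℝ≥0) ≠ 0), Measure.tilted, hZ]
  congr 1
  ext x
  change ENNReal.ofReal _ = ENNReal.ofReal (w x)
  rw [w_eq]
  congr 1
  rw [div_eq_mul_inv, mul_comm]
  congr 2
  simp only [U2]
  ring

lemma adm_U2 : Admissible U2 := by
  refine ⟨?_, ?_, 1, ?_⟩
  · unfold U2
    fun_prop
  · have := integrable_exp_neg_mul_sq (b := 1 / 2) (by norm_num)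
    refine this.congr (Eventually.of_forall fun x => ?_)
    simp only [U2]
    congr 1
    ring
  · intro x
    rw [deriv_U2]
    simp

lemma gauss_tail {t : ℝ} (ht : 0 ≤ t) : (gaussianReal 0 1).real (Ici t) ≤ rexp (-t ^ 2 / 2) := by
  have h := measure_ge_le_exp_mul_mgf (X := id) (μ := gaussianReal 0 1) t ht
    (integrable_exp_mul_gaussianReal t)
  rw [mgf_id_gaussianReal] at h
  have e : {ω : ℝ | t ≤ id ω} = Ici t := by ext; simp
  rw [e] at h
  refine h.trans (le_of_eq ?_)
  rw [← Real.exp_add]
  congr 1
  simp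
  ring

/-- the density of the two-sided exponential law -/
noncomputable def dens (a x : ℝ) : ℝ := a / 2 * rexp (-(a * |x|))

lemma dens_pos {a : ℝ} (ha : 0 < a) (x : ℝ) : 0 < dens a x := by unfold dens; positivity

lemma dens_cont (a : ℝ) : Continuous (dens a) := by unfold dens; fun_prop

/-- the two-sided exponential law -/
noncomputable def lap (a : ℝ) : Measure ℝ := volume.withDensity fun x => ENNReal.ofReal (dens a x)

lemma exp_abs_integrable {b : ℝ} (hb : 0 < b) : Integrable fun x : ℝ => rexp (-(b * |x|)) := by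
  rw [← integrableOn_univ, ← Iic_union_Ioi (a := (0 : ℝ)), integrableOn_union]
  constructor
  · refine ((integrableOn_exp_mul_Iic hb 0).congr_fun (fun x hx => ?_) measurableSet_Iic)
    simp only
    rw [abs_of_nonpos hx]
    congr 1
    ring
  · refine ((integrableOn_exp_mul_Ioi (a := -b) (by linarith) 0).congr_fun (fun x hx => ?_)
      measurableSet_Ioi)
    simp only
    rw [abs_of_pos hx]
    congr 1
    ring

lemma exp_abs_integral {b : ℝ} (hb : 0 < b) : ∫ x : ℝ, rexp (-(b * |x|)) = 2 / b := by
  have h := exp_abs_integrable hb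
  rw [← setIntegral_univ, ← Iic_union_Ioi (a := (0 : ℝ)), setIntegral_union
    (Iic_disjoint_Ioi le_rfl) measurableSet_Ioi h.integrableOn h.integrableOn]
  have e1 : ∫ x in Iic (0 : ℝ), rexp (-(b * |x|)) = 1 / b := by
    rw [setIntegral_congr_fun (g := fun x => rexp (b * x)) measurableSet_Iic]
    · rw [integral_exp_mul_Iic hb]; simp
    · intro x hx
      simp only
      rw [abs_of_nonpos hx]
      congr 1
      ring
  have e2 : ∫ x in Ioi (0 : ℝ), rexp (-(b * |x|)) = 1 / b := by
    rw [setIntegral_congr_fun (g := fun x => rexp (-b * x)) measurableSet_Ioi]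
    · rw [integral_exp_mul_Ioi (by linarith)]; simp
    · intro x hx
      simp only
      rw [abs_of_pos hx]
      congr 1
      ring
  rw [e1, e2]
  ring

lemma dens_integrable {a : ℝ} (ha : 0 < a) : Integrable (dens a) :=
  (exp_abs_integrable ha).const_mul _

lemma lap_prob {a : ℝ} (ha : 0 < a) : IsProbabilityMeasure (lap a) := by
  constructor
  rw [lap, withDensity_apply _ MeasurableSet.univ, Measure.restrict_univ,
    ← ofReal_integral_eq_lintegral_ofReal (dens_integrable ha)
      (Eventually.of_forall fun x => (dens_pos ha x).le)]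
  unfold dens
  rw [integral_const_mul, exp_abs_integral ha]
  have : a / 2 * (2 / a) = 1 := by field_simp
  rw [this, ENNReal.ofReal_one]

lemma lap_integrable_iff {a : ℝ} (ha : 0 < a) (f : ℝ → ℝ) :
    Integrable f (lap a) ↔ Integrable fun x => dens a x * f x := by
  rw [lap, integrable_withDensity_iff_integrable_smul'
    ((dens_cont a).measurable.ennreal_ofReal) (by simp)]
  have h2 : ∀ x, (ENNReal.ofReal (dens a x)).toReal = dens a x := fun x =>
    ENNReal.toReal_ofReal (dens_pos ha x).le
  simp only [h2, smul_eq_mul]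

lemma lap_exp {a b : ℝ} (ha : 0 < a) (hb : b < a) :
    Integrable (fun x => rexp (b * |x|)) (lap a) := by
  rw [lap_integrable_iff ha]
  have := (exp_abs_integrable (b := a - b) (by linarith)).const_mul (a / 2)
  refine this.congr (Eventually.of_forall fun x => ?_)
  simp only [dens]
  rw [mul_assoc, ← Real.exp_add]
  congr 2
  ring

lemma lap_tail {a s : ℝ} (ha : 0 < a) (hs : 0 ≤ s) :
    (lap a).real (Ici s) = 1 / 2 * rexp (-(a * s)) := by
  rw [measureReal_def, lap, withDensity_apply _ measurableSet_Ici,
    ← ofReal_integral_eq_lintegral_ofReal (dens_integrable ha).integrableOn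
      (Eventually.of_forall fun x => (dens_pos ha x).le), ENNReal.toReal_ofReal
      (integral_nonneg fun x => (dens_pos ha x).le), integral_Ici_eq_integral_Ioi]
  rw [setIntegral_congr_fun (g := fun x => a / 2 * rexp (-a * x)) measurableSet_Ioi]
  · rw [integral_const_mul, integral_exp_mul_Ioi (by linarith)]
    field_simp
  · intro x hx
    simp only [dens]
    rw [abs_of_pos (lt_of_le_of_lt hs hx)]
    congr 2
    ring

/-- the density of `lap a` with respect to the standard Gaussian law -/
noncomputable def hh (a x : ℝ) : ℝ≥0∞ := ENNReal.ofReal (dens a x / w x)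

lemma hh_meas (a : ℝ) : Measurable (hh a) := by
  unfold hh
  have h1 := (dens_cont a).measurable
  have h2 := w_cont.measurable
  fun_prop

lemma lap_eq {a : ℝ} : lap a = (gaussianReal 0 1).withDensity (hh a) := by
  rw [gaussianReal_of_var_ne_zero 0 (by norm_num : (1 : ℝ≥0) ≠ 0),
    ← withDensity_mul _ (measurable_gaussianPDF 0 1) (hh_meas a), lap]
  congr 1
  ext x
  change _ = ENNReal.ofReal (w x) * ENNReal.ofReal (dens a x / w x)
  rw [← ENNReal.ofReal_mul (w_pos x).le, mul_div_cancel₀ _ (w_pos x).ne']

lemma kl_ne_top {a : ℝ} (ha : 0 < a) (ν : Measure ℝ) [IsProbabilityMeasure ν] :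
    klDiv ((lap a).prod ν) ((gaussianReal 0 1).prod ν) ≠ ∞ := by
  have hprob := lap_prob ha
  have hp : (lap a).prod ν = ((gaussianReal 0 1).prod ν).withDensity fun z => hh a z.1 := by
    rw [lap_eq, prod_withDensity_left (hh_meas a)]
  have hac : (lap a).prod ν ≪ (gaussianReal 0 1).prod ν := by
    rw [hp]
    exact withDensity_absolutelyContinuous _ _
  apply klDiv_ne_top hac
  have hm : Measurable fun z : ℝ × ℝ => hh a z.1 := (hh_meas a).comp measurable_fst
  have hrn : ((lap a).prod ν).rnDeriv ((gaussianReal 0 1).prod ν) =ᵐ[(lap a).prod ν]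
      fun z => hh a z.1 := by
    have h := Measure.rnDeriv_withDensity ((gaussianReal 0 1).prod ν) hm
    rw [← hp] at h
    exact hac.ae_le h
  have hllr : llr ((lap a).prod ν) ((gaussianReal 0 1).prod ν) =ᵐ[(lap a).prod ν]
      fun z => log (dens a z.1 / w z.1) := by
    filter_upwards [hrn] with z hz
    rw [llr, hz, hh, ENNReal.toReal_ofReal]
    exact (div_pos (dens_pos ha _) (w_pos _)).le
  refine Integrable.congr ?_ hllr.symm
  have hlog : ∀ x, log (dens a x / w x) = (log (a / 2) + log √(2 * Real.pi)) - a * |x| +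
      x ^ 2 / 2 := by
    intro x
    rw [Real.log_div (dens_pos ha x).ne' (w_pos x).ne', dens, w_eq,
      Real.log_mul (by positivity) (Real.exp_pos _).ne',
      Real.log_mul (by positivity) (Real.exp_pos _).ne', Real.log_exp, Real.log_exp, Real.log_inv]
    ring
  have hint : Integrable (fun x => log (dens a x / w x)) (lap a) := by
    simp_rw [hlog]
    have hexp : Integrable (fun x => rexp (a / 2 * |x|)) (lap a) := lap_exp ha (by linarith)
    have h1 : Integrable (fun x : ℝ => a * |x|) (lap a) := by
      refine (hexp.const_mul 2).mono' (by fun_prop) (Eventually.of_forall fun x => ?_)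
      have h0 : 0 ≤ a / 2 * |x| := by positivity
      rw [norm_eq_abs, abs_of_nonneg (by positivity)]
      have := Real.add_one_le_exp (a / 2 * |x|)
      linarith
    have h2 : Integrable (fun x : ℝ => x ^ 2 / 2) (lap a) := by
      refine (hexp.const_mul (4 / a ^ 2)).mono' (by fun_prop) (Eventually.of_forall fun x => ?_)
      have h0 : 0 ≤ a / 2 * |x| := by positivity
      rw [norm_eq_abs, abs_of_nonneg (by positivity)]
      have := Real.quadratic_le_exp_of_nonneg h0
      have h3 : (a / 2 * |x|) ^ 2 / 2 ≤ rexp (a / 2 * |x|) := by linarith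
      have h4 : x ^ 2 / 2 = 4 / a ^ 2 * ((a / 2 * |x|) ^ 2 / 2) := by
        rw [mul_pow, sq_abs]
        field_simp
        norm_num
      rw [h4]
      gcongr
    exact ((integrable_const _).sub h1).add h2
  exact hint.comp_fst ν

end Pool.Agent.R391.ZZ
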