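import Mathlib

open MeasureTheory ProbabilityTheory Real Set InformationTheory Filter
open scoped ENNReal NNReal Topology

namespace Pool.Agent.R391.ZZ

lemma fenchel {f c : ℝ} (hf : 0 ≤ f) : c * f - (rexp c - 1) ≤ klFun f := by
  unfold klFun
  rcases hf.eq_or_lt with h | h
  · subst h
    have := Real.exp_pos c
    simp
    linarith
  · -- f log f + 1 - f ≥ c f - e^c + 1  <=> f (log f - c) - f + e^c ≥ 0
    have h1 : c - log f + 1 ≤ rexp (c - log f) := Real.add_one_le_exp _
    have h2 : rexp (c - log f) = rexp c / f := by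
      rw [Real.exp_sub, Real.exp_log h]
    rw [h2, le_div_iff₀ h] at h1
    nlinarith

lemma kl_lower {α : Type*} [MeasurableSpace α] (p μ : Measure α) [IsProbabilityMeasure p]
    [IsProbabilityMeasure μ] {B : Set α} {s m : ℝ} (hm : 0 < m)
    (hsm : m ≤ s) (hp : s ≤ p.real B) (hμ : μ.real B ≤ m) :
    ENNReal.ofReal (s * (log (s / m) - 1)) ≤ klDiv p μ := by
  by_cases htop : klDiv p μ = ∞
  · rw [htop]; exact le_top
  obtain ⟨hac, hint⟩ := klDiv_ne_top_iff.1 htop
  rw [← ENNReal.ofReal_toReal htop]
  apply ENNReal.ofReal_le_ofReal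
  rw [toReal_klDiv_eq_integral_klFun hac]
  set c := log (s / m) with hc
  have hs : 0 < s := hm.trans_le hsm
  have hsm1 : 1 ≤ s / m := by rw [le_div_iff₀ hm]; linarith
  have hc0 : 0 ≤ c := Real.log_nonneg hsm1
  have hec : rexp c = s / m := by rw [hc, Real.exp_log]; positivity
  have hintk : Integrable (fun x => klFun (p.rnDeriv μ x).toReal) μ :=
    (integrable_klFun_rnDeriv_iff hac).2 hint
  have hf : Integrable (fun x => (p.rnDeriv μ x).toReal) μ := Measure.integrable_toReal_rnDeriv
  have h1 : ∫ x in B, (c * (p.rnDeriv μ x).toReal - (rexp c - 1)) ∂μ ≤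
      ∫ x, klFun (p.rnDeriv μ x).toReal ∂μ := by
    calc ∫ x in B, (c * (p.rnDeriv μ x).toReal - (rexp c - 1)) ∂μ
        ≤ ∫ x in B, klFun (p.rnDeriv μ x).toReal ∂μ := by
          apply setIntegral_mono
          · exact ((hf.const_mul c).sub (integrable_const _)).integrableOn
          · exact hintk.integrableOn
          · intro x
            exact fenchel ENNReal.toReal_nonneg
      _ ≤ ∫ x, klFun (p.rnDeriv μ x).toReal ∂μ := by
          apply setIntegral_le_integral hintk
          filter_upwards with x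
          exact klFun_nonneg ENNReal.toReal_nonneg
  refine le_trans ?_ h1
  rw [integral_sub (hf.const_mul c).integrableOn (integrable_const _).integrableOn,
    integral_const_mul, Measure.setIntegral_toReal_rnDeriv hac, integral_const]
  simp only [MeasurableSet.univ, measureReal_restrict_apply, univ_inter, smul_eq_mul]
  rw [hec]
  have h3 : μ.real B * (s / m - 1) ≤ m * (s / m - 1) :=
    mul_le_mul_of_nonneg_right hμ (by linarith)
  have h4 : m * (s / m - 1) = s - m := by field_simp
  have h5 : c * s ≤ c * p.real B := mul_le_mul_of_nonneg_left hp hc0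
  nlinarith

/-- If at each time the law `p t` gives mass at least `κ exp (-α t)` to a set of `μ`-measure at
most `exp (-β t²)`, then the relative entropy does not decay at a rate larger than `α`. -/
lemma no_decay {α : Type*} [MeasurableSpace α] (p : ℝ → Measure α) (μ : Measure α)
    (hpr : ∀ t, 0 ≤ t → IsProbabilityMeasure (p t))
    [IsProbabilityMeasure μ] {κ a β r : ℝ} (hκ : 0 < κ) (hβ : 0 < β) (har : a < r)
    (h : ∀ t, 0 < t → ∃ B, MeasurableSet B ∧ κ * rexp (-(a * t)) ≤ (p t).real B ∧
      μ.real B ≤ rexp (-(β * t ^ 2))) :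
    ¬ ∃ C : ℝ, ∀ t, 0 ≤ t → klDiv (p t) μ ≤ ENNReal.ofReal (C * rexp (-(r * t))) := by
  rintro ⟨C, hC⟩
  -- large times
  have e1 : Tendsto (fun t : ℝ => κ * rexp ((r - a) * t)) atTop atTop := by
    apply Tendsto.const_mul_atTop hκ
    exact Real.tendsto_exp_atTop.comp (tendsto_id.const_mul_atTop (by linarith))
  have e2 : Tendsto (fun t : ℝ => β * t ^ 2 - a * t + (log κ - 2)) atTop atTop := by
    apply tendsto_atTop_add_const_right
    have : (fun t : ℝ => β * t ^ 2 - a * t) = fun t => t * (β * t - a) := by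
      ext t; ring
    rw [this]
    apply tendsto_id.atTop_mul_atTop₀
    exact tendsto_atTop_add_const_right _ _ (tendsto_id.const_mul_atTop hβ)
  obtain ⟨t, ht00, ht1, ht2⟩ := ((eventually_gt_atTop (0 : ℝ)).and
    ((e1.eventually_gt_atTop C).and (e2.eventually_ge_atTop 0))).exists
  have ht0 : 0 ≤ t := ht00.le
  obtain ⟨B, hB, hB1, hB2⟩ := h t ht00
  have := hpr t ht0
  set s := κ * rexp (-(a * t)) with hs
  set m := rexp (-(β * t ^ 2)) with hm
  have hs0 : 0 < s := by positivity
  have hm0 : 0 < m := by positivity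
  have hlog : log (s / m) = log κ - a * t + β * t ^ 2 := by
    rw [Real.log_div hs0.ne' hm0.ne', hs, hm, Real.log_mul hκ.ne' (Real.exp_pos _).ne',
      Real.log_exp, Real.log_exp]
    ring
  have hlog2 : 2 ≤ log (s / m) := by rw [hlog]; linarith
  have hms : m ≤ s := by
    have h1 : 1 ≤ s / m := by
      rw [← Real.exp_log (div_pos hs0 hm0)]
      exact Real.one_le_exp (by linarith)
    rwa [le_div_iff₀ hm0, one_mul] at h1
  have hkl := (kl_lower (p t) μ hm0 hms hB1 hB2).trans (hC t ht0)
  have hpos : 0 < s * (log (s / m) - 1) := by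
    apply mul_pos hs0; linarith
  have h2 : s * (log (s / m) - 1) ≤ C * rexp (-(r * t)) := by
    by_contra hcon
    push Not at hcon
    have h3 := ENNReal.ofReal_lt_ofReal_iff hpos |>.2 hcon
    exact absurd hkl (not_le.2 h3)
  have h3 : s ≤ s * (log (s / m) - 1) := by nlinarith
  have h4 : s ≤ C * rexp (-(r * t)) := h3.trans h2
  have h5 : κ * rexp ((r - a) * t) ≤ C := by
    have h6 : s * rexp (r * t) ≤ C * rexp (-(r * t)) * rexp (r * t) :=
      mul_le_mul_of_nonneg_right h4 (Real.exp_pos _).le
    have h7 : rexp (-(r * t)) * rexp (r * t) = 1 := by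
      rw [← Real.exp_add]; simp
    have h8 : s * rexp (r * t) = κ * rexp ((r - a) * t) := by
      rw [hs, mul_assoc, ← Real.exp_add]
      congr 2; ring
    rw [h8, mul_assoc, h7, mul_one] at h6
    exact h6
  linarith

end Pool.Agent.R391.ZZ
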