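import Pool.Agent.R391.ZZ.Defs

open MeasureTheory ProbabilityTheory Real Set Filter
open scoped ENNReal NNReal Topology

namespace Pool.Agent.R391.ZZ

/-- the standard Gaussian density -/
noncomputable def w (x : ℝ) : ℝ := gaussianPDFReal 0 1 x

lemma w_eq (x : ℝ) : w x = (√(2 * Real.pi))⁻¹ * rexp (-x ^ 2 / 2) := by
  simp [w, gaussianPDFReal_def]

lemma w_pos (x : ℝ) : 0 < w x := by rw [w_eq]; positivity

lemma w_deriv (x : ℝ) : HasDerivAt w (-x * w x) x := by
  have h : w = fun x => (√(2 * Real.pi))⁻¹ * rexp (-x ^ 2 / 2) := funext w_eq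
  rw [h]
  have h1 : HasDerivAt (fun x : ℝ => -x ^ 2 / 2) (-x) x := by
    refine (((hasDerivAt_id' x).pow 2).neg.div_const 2).congr_deriv ?_
    norm_num
    ring
  refine ((h1.exp).const_mul ((√(2 * Real.pi))⁻¹)).congr_deriv ?_
  rw [← mul_assoc, mul_comm]

lemma w_cont : Continuous w :=
  continuous_iff_continuousAt.2 fun x => (w_deriv x).continuousAt

lemma w_int : Integrable w := integrable_gaussianPDFReal 0 1

lemma w_int_eq : ∫ x, w x = 1 := integral_gaussianPDFReal_eq_one 0 (by norm_num)

lemma w_even (x : ℝ) : w (-x) = w x := by rw [w_eq, w_eq]; simp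

lemma w_anti {x y : ℝ} (h : |x| ≤ |y|) : w y ≤ w x := by
  rw [w_eq, w_eq]
  have : x ^ 2 ≤ y ^ 2 := sq_le_sq.2 h
  gcongr

lemma int_iff (f : ℝ → ℝ) : Integrable f (gaussianReal 0 1) ↔ Integrable fun x => w x * f x := by
  rw [gaussianReal_of_var_ne_zero 0 (by norm_num : (1 : ℝ≥0) ≠ 0)]
  have : gaussianPDF 0 1 = fun x => ENNReal.ofReal (gaussianPDFReal 0 1 x) := rfl
  rw [this, integrable_withDensity_iff_integrable_smul'
    (measurable_gaussianPDFReal 0 1).ennreal_ofReal (by simp)]
  have h2 : ∀ x, (ENNReal.ofReal (gaussianPDFReal 0 1 x)).toReal = w x := fun x =>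
    ENNReal.toReal_ofReal (gaussianPDFReal_nonneg 0 1 x)
  simp only [h2, smul_eq_mul]

lemma integral_g (f : ℝ → ℝ) : ∫ x, f x ∂(gaussianReal 0 1) = ∫ x, w x * f x := by
  rw [integral_gaussianReal_eq_integral_smul (by norm_num)]
  rfl

/-- Step A. -/
lemma stepA {k k' : ℝ → ℝ} (hk : ∀ x, HasDerivAt k (k' x) x) (hk' : Continuous k') {N : ℝ}
    (hN : 0 ≤ N) :
    ∫ x in (-N)..N, x ^ 2 * k x ^ 2 * w x ≤
      4 * (∫ x in (-N)..N, k' x ^ 2 * w x) + 2 * ∫ x in (-N)..N, k x ^ 2 * w x := by
  have hkc : Continuous k := continuous_iff_continuousAt.2 fun x => (hk x).continuousAt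
  have hw := w_cont
  have hF : ∀ x ∈ uIcc (-N) N, HasDerivAt (fun x => x * k x ^ 2 * w x)
      (k x ^ 2 * w x + 2 * (x * k x * k' x * w x) - x ^ 2 * k x ^ 2 * w x) x := by
    intro x _
    refine (((hasDerivAt_id' x).mul ((hk x).pow 2)).mul (w_deriv x)).congr_deriv ?_
    simp only [Pi.mul_apply, Pi.pow_apply, Nat.cast_ofNat, Nat.add_one_sub_one, pow_one]
    ring
  have hft := intervalIntegral.integral_eq_sub_of_hasDerivAt hF
    (by apply Continuous.intervalIntegrable; fun_prop)
  have hft2 : 0 ≤ ∫ x in (-N)..N, (k x ^ 2 * w x + 2 * (x * k x * k' x * w x) -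
      x ^ 2 * k x ^ 2 * w x) := by
    rw [hft]
    have h1 : 0 ≤ N * k N ^ 2 * w N := by have := w_pos N; positivity
    have h2 : 0 ≤ N * k (-N) ^ 2 * w (-N) := by have := w_pos (-N); positivity
    nlinarith
  have hsq : 0 ≤ ∫ x in (-N)..N, (k' x - x * k x / 2) ^ 2 * w x := by
    apply intervalIntegral.integral_nonneg (by linarith)
    intro x _
    have := w_pos x
    positivity
  have i1 : IntervalIntegrable (fun x => k' x ^ 2 * w x) volume (-N) N :=
    Continuous.intervalIntegrable (by fun_prop) _ _
  have i2 : IntervalIntegrable (fun x => x * k x * k' x * w x) volume (-N) N :=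
    Continuous.intervalIntegrable (by fun_prop) _ _
  have i3 : IntervalIntegrable (fun x => x ^ 2 * k x ^ 2 * w x) volume (-N) N :=
    Continuous.intervalIntegrable (by fun_prop) _ _
  have i4 : IntervalIntegrable (fun x => k x ^ 2 * w x) volume (-N) N :=
    Continuous.intervalIntegrable (by fun_prop) _ _
  rw [intervalIntegral.integral_sub (i4.add (i2.const_mul 2)) i3,
    intervalIntegral.integral_add i4 (i2.const_mul 2), intervalIntegral.integral_const_mul] at hft2
  have hsq2 : ∫ x in (-N)..N, (k' x - x * k x / 2) ^ 2 * w x =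
      (∫ x in (-N)..N, k' x ^ 2 * w x) - (∫ x in (-N)..N, x * k x * k' x * w x) +
        (1 / 4) * ∫ x in (-N)..N, x ^ 2 * k x ^ 2 * w x := by
    rw [← intervalIntegral.integral_const_mul, ← intervalIntegral.integral_sub i1 i2,
      ← intervalIntegral.integral_add (i1.sub i2) (i3.const_mul _)]
    apply intervalIntegral.integral_congr
    intro x _
    simp only
    ring
  rw [hsq2] at hsq
  linarith

lemma lim_lemma {f : ℝ → ℝ} (hf : Continuous f) (h0 : ∀ x, 0 ≤ f x) {C : ℝ}
    (h : ∀ N, 0 ≤ N → ∫ x in (-N)..N, f x ≤ C) : Integrable f ∧ ∫ x, f x ≤ C := by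
  have hi : Integrable f := by
    refine integrable_of_intervalIntegral_norm_bounded (l := atTop) (a := fun N : ℝ => -N)
      (b := fun N : ℝ => N) C (fun i => ?_) tendsto_neg_atTop_atBot tendsto_id ?_
    · exact (hf.integrableOn_Icc).mono_set Ioc_subset_Icc_self
    · filter_upwards [eventually_ge_atTop (0 : ℝ)] with N hN
      refine le_trans (le_of_eq ?_) (h N hN)
      apply intervalIntegral.integral_congr
      intro x _
      simp only [norm_eq_abs, abs_of_nonneg (h0 x)]
  refine ⟨hi, ?_⟩
  have ht := intervalIntegral_tendsto_integral hi tendsto_neg_atTop_atBot tendsto_id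
  refine le_of_tendsto ht ?_
  filter_upwards [eventually_ge_atTop (0 : ℝ)] with N hN
  exact h N hN

/-- the constant of the Poincaré type inequality -/
noncomputable def C1 : ℝ := 8 / w 2 + 2

lemma C1_pos : 0 < C1 := by
  have := w_pos 2
  unfold C1
  positivity

lemma intw_le {N : ℝ} (hN : 0 ≤ N) : ∫ x in (-N)..N, w x ≤ 1 := by
  rw [intervalIntegral.integral_of_le (by linarith), ← w_int_eq]
  exact setIntegral_le_integral w_int (Eventually.of_forall fun x => (w_pos x).le)

lemma stepB {k k' : ℝ → ℝ} (hk : ∀ x, HasDerivAt k (k' x) x) (hk' : Continuous k')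
    (h0 : k 0 = 0) {A : ℝ} (hA : ∀ N, 0 ≤ N → ∫ x in (-N)..N, k' x ^ 2 * w x ≤ A)
    {N : ℝ} (hN : 0 ≤ N) : ∫ x in (-N)..N, k x ^ 2 * w x ≤ C1 * A := by
  have hkc : Continuous k := continuous_iff_continuousAt.2 fun x => (hk x).continuousAt
  have hw := w_cont
  have hw2 := w_pos 2
  set J := ∫ x in (-2 : ℝ)..2, |k' x| with hJ
  set I := ∫ x in (-2 : ℝ)..2, k' x ^ 2 with hI
  have hJ2 : J ^ 2 ≤ 4 * I := by
    have h1 : 0 ≤ ∫ x in (-2 : ℝ)..2, (|k' x| - J / 4) ^ 2 := by
      apply intervalIntegral.integral_nonneg (by norm_num)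
      intro x _
      positivity
    have h2 : ∫ x in (-2 : ℝ)..2, (|k' x| - J / 4) ^ 2 =
        I - J / 2 * J + 4 * (J ^ 2 / 16) := by
      have e : ∀ x, (|k' x| - J / 4) ^ 2 = k' x ^ 2 - J / 2 * |k' x| + J ^ 2 / 16 := by
        intro x
        have := sq_abs (k' x)
        nlinarith
      simp_rw [e]
      rw [intervalIntegral.integral_add, intervalIntegral.integral_sub,
        intervalIntegral.integral_const_mul, intervalIntegral.integral_const]
      · norm_num
        ring
      all_goals apply Continuous.intervalIntegrable; fun_prop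
    rw [h2] at h1
    nlinarith
  have hIA : I ≤ A / w 2 := by
    rw [le_div_iff₀ hw2]
    refine le_trans ?_ (hA 2 (by norm_num))
    rw [hI, ← intervalIntegral.integral_mul_const]
    apply intervalIntegral.integral_mono_on (by norm_num)
    · apply Continuous.intervalIntegrable; fun_prop
    · apply Continuous.intervalIntegrable; fun_prop
    · intro x hx
      apply mul_le_mul_of_nonneg_left _ (sq_nonneg _)
      apply w_anti
      rw [abs_of_pos (by norm_num : (0 : ℝ) < 2), abs_le]
      exact hx
  have hkx : ∀ x, |x| ≤ 2 → k x ^ 2 ≤ 4 * (A / w 2) := by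
    intro x hx
    have h1 : k x = ∫ y in (0 : ℝ)..x, k' y := by
      rw [intervalIntegral.integral_eq_sub_of_hasDerivAt (fun y _ => hk y)
        (hk'.intervalIntegrable _ _), h0, sub_zero]
    have h2 : |k x| ≤ J := by
      rw [h1]
      calc |∫ y in (0 : ℝ)..x, k' y| ≤ |(∫ y in (0 : ℝ)..x, |k' y|)| :=
            by simpa only [norm_eq_abs] using
              intervalIntegral.norm_integral_le_abs_integral_norm (f := k') (a := 0) (b := x)
        _ ≤ J := by
            have hx' := abs_le.1 hx
            rcases le_total 0 x with hx0 | hx0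
            · rw [abs_of_nonneg (intervalIntegral.integral_nonneg hx0 fun _ _ => abs_nonneg _)]
              apply intervalIntegral.integral_mono_interval (by norm_num) hx0 hx'.2
              · exact Eventually.of_forall fun _ => abs_nonneg _
              · apply Continuous.intervalIntegrable; fun_prop
            · rw [intervalIntegral.integral_symm, abs_neg,
                abs_of_nonneg (intervalIntegral.integral_nonneg hx0 fun _ _ => abs_nonneg _)]
              apply intervalIntegral.integral_mono_interval hx'.1 hx0 (by norm_num)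
              · exact Eventually.of_forall fun _ => abs_nonneg _
              · apply Continuous.intervalIntegrable; fun_prop
    have h3 : k x ^ 2 ≤ J ^ 2 := by
      rw [← sq_abs (k x)]
      exact pow_le_pow_left₀ (abs_nonneg _) h2 2
    linarith
  have hpt : ∀ x, k x ^ 2 * w x ≤ 4 * (A / w 2) * w x + (1 / 4) * (x ^ 2 * k x ^ 2 * w x) := by
    intro x
    have hwx := w_pos x
    have hA0 : 0 ≤ A := by
      have := hA 0 le_rfl
      simpa using this
    rcases le_total |x| 2 with h | h
    · have h1 := mul_le_mul_of_nonneg_right (hkx x h) hwx.le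
      have h2 : 0 ≤ (1 / 4) * (x ^ 2 * k x ^ 2 * w x) := by positivity
      linarith
    · have h1 : 4 ≤ x ^ 2 := by
        rw [← sq_abs]
        nlinarith
      have h2 : 0 ≤ 4 * (A / w 2) * w x := by positivity
      have h3 : 0 ≤ k x ^ 2 * w x := by positivity
      nlinarith
  have hint : ∫ x in (-N)..N, k x ^ 2 * w x ≤
      4 * (A / w 2) * (∫ x in (-N)..N, w x) + (1 / 4) * ∫ x in (-N)..N, x ^ 2 * k x ^ 2 * w x := by
    rw [← intervalIntegral.integral_const_mul, ← intervalIntegral.integral_const_mul,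
      ← intervalIntegral.integral_add]
    · apply intervalIntegral.integral_mono_on (by linarith)
      · apply Continuous.intervalIntegrable; fun_prop
      · apply Continuous.intervalIntegrable; fun_prop
      · intro x _
        exact hpt x
    all_goals apply Continuous.intervalIntegrable; fun_prop
  have hSA := stepA hk hk' hN
  have hAN := hA N hN
  have hA0 : 0 ≤ A := by
    have := hA 0 le_rfl
    simpa using this
  have hw1 := intw_le hN
  have h5 : 4 * (A / w 2) * (∫ x in (-N)..N, w x) ≤ 4 * (A / w 2) * 1 :=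
    mul_le_mul_of_nonneg_left hw1 (by positivity)
  have h6 : C1 * A = 2 * (4 * (A / w 2) + A) := by
    unfold C1
    ring
  rw [h6]
  linarith

end Pool.Agent.R391.ZZ
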