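import Pool.Agent.R391.ZZ.LSI

open MeasureTheory ProbabilityTheory Real Set Filter
open scoped ENNReal NNReal Topology

namespace Pool.Agent.R391.ZZ

/-- the facts about `k` with `k 0 = 0`. -/
lemma stepB' {k k' : ℝ → ℝ} (hk : ∀ x, HasDerivAt k (k' x) x) (hk' : Continuous k')
    (h0 : k 0 = 0) {A : ℝ} (hA : ∀ N, 0 ≤ N → ∫ x in (-N)..N, k' x ^ 2 * w x ≤ A) :
    (Integrable (fun x => k x ^ 2 * w x) ∧ ∫ x, k x ^ 2 * w x ≤ C1 * A) ∧
    (Integrable (fun x => x ^ 2 * k x ^ 2 * w x) ∧
      ∫ x, x ^ 2 * k x ^ 2 * w x ≤ (4 + 2 * C1) * A) := by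
  have hkc : Continuous k := continuous_iff_continuousAt.2 fun x => (hk x).continuousAt
  have hw := w_cont
  constructor
  · apply lim_lemma (by fun_prop)
    · intro x
      have := w_pos x
      positivity
    · intro N hN
      exact stepB hk hk' h0 hA hN
  · apply lim_lemma (by fun_prop)
    · intro x
      have := w_pos x
      positivity
    · intro N hN
      have h1 := stepB hk hk' h0 hA hN
      have h2 := stepA hk hk' hN
      have h3 := hA N hN
      nlinarith

/-- the constant of the sup bound -/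
noncomputable def C2 : ℝ := 4 * C1 + 3

lemma stepC {k k' : ℝ → ℝ} (hk : ∀ x, HasDerivAt k (k' x) x) (hk' : Continuous k')
    (h0 : k 0 = 0) {A : ℝ} (hAi : Integrable fun x => k' x ^ 2 * w x)
    (hAe : ∫ x, k' x ^ 2 * w x ≤ A) (hA : ∀ N, 0 ≤ N → ∫ x in (-N)..N, k' x ^ 2 * w x ≤ A)
    (x : ℝ) : k x ^ 2 * w x ≤ C2 * A := by
  obtain ⟨⟨hK, hKe⟩, hB, hBe⟩ := stepB' hk hk' h0 hA
  have hkc : Continuous k := continuous_iff_continuousAt.2 fun x => (hk x).continuousAt
  have hw := w_cont
  have hq : ∀ x, HasDerivAt (fun x => k x ^ 2 * w x)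
      (2 * k x * k' x * w x - x * k x ^ 2 * w x) x := by
    intro x
    refine (((hk x).pow 2).mul (w_deriv x)).congr_deriv ?_
    simp only [Pi.pow_apply, Nat.cast_ofNat, Nat.add_one_sub_one, pow_one]
    ring
  set q' : ℝ → ℝ := fun x => 2 * k x * k' x * w x - x * k x ^ 2 * w x with hq'
  have hq'c : Continuous q' := by rw [hq']; fun_prop
  have hbd : ∀ x, |q' x| ≤ k x ^ 2 * w x + k' x ^ 2 * w x +
      (1 / 2) * (k x ^ 2 * w x + x ^ 2 * k x ^ 2 * w x) := by
    intro x
    have hwx := w_pos x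
    have h1 : |2 * k x * k' x - x * k x ^ 2| ≤ k x ^ 2 + k' x ^ 2 +
        (1 / 2) * (k x ^ 2 + x ^ 2 * k x ^ 2) := by
      rw [abs_le]
      constructor <;>
      nlinarith [sq_nonneg (k x - k' x), sq_nonneg (k x + k' x), mul_nonneg (sq_nonneg (x - 1))
        (sq_nonneg (k x)), mul_nonneg (sq_nonneg (x + 1)) (sq_nonneg (k x))]
    have h2 : q' x = (2 * k x * k' x - x * k x ^ 2) * w x := by rw [hq']; ring
    rw [h2, abs_mul, abs_of_pos hwx]
    calc |2 * k x * k' x - x * k x ^ 2| * w x ≤ (k x ^ 2 + k' x ^ 2 +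
        (1 / 2) * (k x ^ 2 + x ^ 2 * k x ^ 2)) * w x := mul_le_mul_of_nonneg_right h1 hwx.le
      _ = _ := by ring
  have hbi : Integrable fun x => k x ^ 2 * w x + k' x ^ 2 * w x +
      (1 / 2) * (k x ^ 2 * w x + x ^ 2 * k x ^ 2 * w x) :=
    (hK.add hAi).add ((hK.add hB).const_mul _)
  have hq'i : Integrable q' := hbi.mono' hq'c.aestronglyMeasurable
    (Eventually.of_forall fun x => by rw [norm_eq_abs]; exact hbd x)
  have hD : ∫ x, |q' x| ≤ C1 * A + A + (1 / 2) * (C1 * A + (4 + 2 * C1) * A) := by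
    calc ∫ x, |q' x| ≤ ∫ x, (k x ^ 2 * w x + k' x ^ 2 * w x +
          (1 / 2) * (k x ^ 2 * w x + x ^ 2 * k x ^ 2 * w x)) :=
          integral_mono hq'i.abs hbi hbd
      _ = (∫ x, k x ^ 2 * w x) + (∫ x, k' x ^ 2 * w x) +
          (1 / 2) * ((∫ x, k x ^ 2 * w x) + ∫ x, x ^ 2 * k x ^ 2 * w x) := by
          have e1 : ∫ x, ((k x ^ 2 * w x + k' x ^ 2 * w x) +
              (1 / 2) * (k x ^ 2 * w x + x ^ 2 * k x ^ 2 * w x)) =
              (∫ x, (k x ^ 2 * w x + k' x ^ 2 * w x)) +
                ∫ x, (1 / 2) * (k x ^ 2 * w x + x ^ 2 * k x ^ 2 * w x) :=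
            integral_add (hK.add hAi) ((hK.add hB).const_mul _)
          rw [e1, integral_add hK hAi, integral_const_mul, integral_add hK hB]
      _ ≤ _ := by linarith
  set D := ∫ x, |q' x| with hDdef
  have hxy : ∀ y ∈ Icc x (x + 1), k x ^ 2 * w x ≤ k y ^ 2 * w y + D := by
    intro y hy
    have h1 : k y ^ 2 * w y - k x ^ 2 * w x = ∫ z in x..y, q' z := by
      rw [intervalIntegral.integral_eq_sub_of_hasDerivAt (fun z _ => hq z)
        (hq'c.intervalIntegrable _ _)]
    have h2 : -D ≤ ∫ z in x..y, q' z := by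
      have h3 : |∫ z in x..y, q' z| ≤ D := by
        calc |∫ z in x..y, q' z| ≤ ∫ z in x..y, |q' z| :=
              intervalIntegral.abs_integral_le_integral_abs hy.1
          _ ≤ D := by
              rw [intervalIntegral.integral_of_le hy.1]
              exact setIntegral_le_integral hq'i.abs (Eventually.of_forall fun _ => abs_nonneg _)
      exact (abs_le.1 h3).1
    linarith
  have h5 : ∫ y in x..(x + 1), k x ^ 2 * w x ≤ ∫ y in x..(x + 1), (k y ^ 2 * w y + D) := by
    apply intervalIntegral.integral_mono_on (by linarith)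
    · simp
    · apply Continuous.intervalIntegrable; fun_prop
    · exact hxy
  rw [intervalIntegral.integral_const, intervalIntegral.integral_add
    (by apply Continuous.intervalIntegrable; fun_prop) (by simp),
    intervalIntegral.integral_const] at h5
  have h6 : ∫ y in x..(x + 1), k y ^ 2 * w y ≤ C1 * A := by
    rw [intervalIntegral.integral_of_le (by linarith)]
    refine le_trans (setIntegral_le_integral hK (Eventually.of_forall fun y => ?_)) hKe
    have := w_pos y
    simp only [Pi.zero_apply]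
    positivity
  simp only [add_sub_cancel_left, smul_eq_mul, one_mul] at h5
  have hA0 : 0 ≤ A := by
    have := hA 0 le_rfl
    simpa using this
  have := C1_pos
  unfold C2
  nlinarith [mul_nonneg this.le hA0]

lemma ptwise {c k A t F : ℝ} (hA : 0 < A) (ht : t = c ^ 2 + A) (hF : F = (c + k) ^ 2) :
    F * log F - F * log t - F + t ≤ 2 * A + 18 * k ^ 2 + 4 * (k ^ 2 * log (1 + 4 * k ^ 2 / A)) := by
  have ht0 : 0 < t := by rw [ht]; positivity
  have hF0 : 0 ≤ F := by rw [hF]; positivity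
  have hAt : A ≤ t := by rw [ht]; nlinarith [sq_nonneg c]
  have hlog0 : 0 ≤ log (1 + 4 * k ^ 2 / A) := Real.log_nonneg (by
    have : 0 ≤ 4 * k ^ 2 / A := by positivity
    linarith)
  rcases hF0.eq_or_lt with h | hFpos
  · -- F = 0 : need t ≤ RHS ; c = -k
    rw [← h]
    have hck : c = -k := by
      rw [← h] at hF
      nlinarith [sq_nonneg (c + k), pow_eq_zero_iff (two_ne_zero) |>.1 hF.symm]
    have : t = k ^ 2 + A := by rw [ht, hck]; ring
    simp only [log_zero, mul_zero, zero_mul, sub_self, zero_add]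
    rw [this]
    nlinarith [sq_nonneg k, mul_nonneg (sq_nonneg k) hlog0]
  rcases le_or_gt (k ^ 2) t with hkt | hkt
  · -- quadratic bound
    have h1 : F * log F - F * log t - F + t ≤ (F - t) ^ 2 / t := by
      have h2 : log (F / t) ≤ F / t - 1 := Real.log_le_sub_one_of_pos (by positivity)
      have h3 : log F - log t ≤ F / t - 1 := by rwa [Real.log_div hFpos.ne' ht0.ne'] at h2
      have h4 : F * (log F - log t) ≤ F * (F / t - 1) := mul_le_mul_of_nonneg_left h3 hF0
      have h5 : F * (F / t - 1) - F + t = (F - t) ^ 2 / t := by field_simp; ring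
      nlinarith
    have h2 : (F - t) ^ 2 ≤ (18 * k ^ 2 + 2 * A) * t := by
      have e1 : F - t = 2 * c * k + k ^ 2 - A := by rw [hF, ht]; ring
      have hc : c ^ 2 ≤ t := by rw [ht]; linarith
      have e2 : (2 * c * k + k ^ 2) ^ 2 ≤ 9 * k ^ 2 * t := by
        have : (2 * c + k) ^ 2 ≤ 9 * t := by
          nlinarith [sq_nonneg (c - k)]
        have h7 := mul_le_mul_of_nonneg_left this (sq_nonneg k)
        nlinarith
      have e3 : (2 * c * k + k ^ 2 - A) ^ 2 ≤ 2 * (2 * c * k + k ^ 2) ^ 2 + 2 * A ^ 2 := by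
        nlinarith [sq_nonneg (2 * c * k + k ^ 2 + A)]
      rw [e1]
      nlinarith
    have h3 : (F - t) ^ 2 / t ≤ 18 * k ^ 2 + 2 * A := by
      rw [div_le_iff₀ ht0]; exact h2
    nlinarith [mul_nonneg (sq_nonneg k) hlog0]
  · -- large k
    have hk0 : 0 < k ^ 2 := ht0.trans hkt
    have hF4 : F ≤ 4 * k ^ 2 := by
      rw [hF]
      nlinarith [sq_nonneg (c - k)]
    have h1 : F * log F - F * log t ≤ 4 * (k ^ 2 * log (1 + 4 * k ^ 2 / A)) := by
      rcases le_total F t with hle | hle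
      · have : log F ≤ log t := Real.log_le_log hFpos hle
        nlinarith [mul_nonneg (sq_nonneg k) hlog0]
      · have h2 : log F - log t ≤ log (1 + 4 * k ^ 2 / A) := by
          rw [← Real.log_div hFpos.ne' ht0.ne']
          apply Real.log_le_log (by positivity)
          calc F / t ≤ 4 * k ^ 2 / A := by gcongr
            _ ≤ 1 + 4 * k ^ 2 / A := by linarith
        calc F * log F - F * log t = F * (log F - log t) := by ring
          _ ≤ F * log (1 + 4 * k ^ 2 / A) := mul_le_mul_of_nonneg_left h2 hF0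
          _ ≤ 4 * k ^ 2 * log (1 + 4 * k ^ 2 / A) := mul_le_mul_of_nonneg_right hF4 hlog0
          _ = _ := by ring
    nlinarith

/-- the constant inside the logarithm -/
noncomputable def LL : ℝ := 4 * C2 * √(2 * Real.pi)

lemma C2_pos : 0 < C2 := by
  have := C1_pos
  unfold C2
  positivity

lemma LL_pos : 0 < LL := by
  have := C2_pos
  unfold LL
  positivity

lemma stepE {k A x : ℝ} (hA : 0 < A) (hq : k ^ 2 * w x ≤ C2 * A) :
    log (1 + 4 * k ^ 2 / A) ≤ log (1 + LL) + x ^ 2 / 2 := by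
  have hw := w_pos x
  have hLL := LL_pos
  have h1 : 4 * k ^ 2 / A ≤ LL * rexp (x ^ 2 / 2) := by
    have h2 : k ^ 2 ≤ C2 * A / w x := by rwa [le_div_iff₀ hw]
    have h3 : 1 / w x = √(2 * Real.pi) * rexp (x ^ 2 / 2) := by
      rw [w_eq, one_div, mul_inv, inv_inv, ← Real.exp_neg]
      congr 2
      ring
    calc 4 * k ^ 2 / A ≤ 4 * (C2 * A / w x) / A := by gcongr
      _ = 4 * C2 * (1 / w x) := by field_simp
      _ = LL * rexp (x ^ 2 / 2) := by rw [h3, LL]; ring
  have h4 : 1 + 4 * k ^ 2 / A ≤ (1 + LL) * rexp (x ^ 2 / 2) := by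
    have : 1 ≤ rexp (x ^ 2 / 2) := Real.one_le_exp (by positivity)
    linarith
  have h5 : 0 < 1 + 4 * k ^ 2 / A := by positivity
  calc log (1 + 4 * k ^ 2 / A) ≤ log ((1 + LL) * rexp (x ^ 2 / 2)) := Real.log_le_log h5 h4
    _ = log (1 + LL) + x ^ 2 / 2 := by
      rw [Real.log_mul (by positivity) (Real.exp_pos _).ne', Real.log_exp]

/-- the constant of the logarithmic Sobolev inequality -/
noncomputable def C3 : ℝ := 2 + 18 * C1 + 4 * (log (1 + LL) * C1 + (4 + 2 * C1) / 2)

theorem gaussian_lsi : LogSobolev (gaussianReal 0 1) := by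
  refine ⟨C3 / 2, fun f hf hfi => ?_⟩
  set γ := gaussianReal 0 1 with hγ
  set A := ∫ x, deriv f x ^ 2 ∂γ with hAdef
  have hfd : Differentiable ℝ f := hf.differentiable (by norm_num)
  have hfc : Continuous f := hf.continuous
  have hf'c : Continuous (deriv f) := hf.continuous_deriv (by norm_num)
  have hw := w_cont
  set c := f 0 with hc
  set k : ℝ → ℝ := fun x => f x - c with hk
  have hk0 : k 0 = 0 := by simp [hk, hc]
  have hkd : ∀ x, HasDerivAt k (deriv f x) x := fun x => (hfd x).hasDerivAt.sub_const c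
  have hkc : Continuous k := by rw [hk]; fun_prop
  have hAi : Integrable fun x => deriv f x ^ 2 * w x := by
    have := (int_iff _).1 hfi
    simpa only [mul_comm] using this
  have hAe : ∫ x, deriv f x ^ 2 * w x = A := by
    rw [hAdef, hγ, integral_g]
    simp only [mul_comm]
  have hA : ∀ N, 0 ≤ N → ∫ x in (-N)..N, deriv f x ^ 2 * w x ≤ A := by
    intro N hN
    rw [← hAe, intervalIntegral.integral_of_le (by linarith)]
    apply setIntegral_le_integral hAi (Eventually.of_forall fun x => ?_)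
    have := w_pos x
    simp only [Pi.zero_apply]
    positivity
  have hA0 : 0 ≤ A := integral_nonneg fun x => sq_nonneg _
  obtain ⟨⟨hK, hKe⟩, hB, hBe⟩ := stepB' hkd hf'c hk0 hA
  have hsup := stepC hkd hf'c hk0 hAi hAe.le hA
  rcases hA0.eq_or_lt with hA00 | hApos
  · -- f is constant
    have hkz : ∀ x, k x = 0 := by
      intro x
      have h1 := hsup x
      rw [← hA00, mul_zero] at h1
      have h2 := w_pos x
      by_contra hne
      have h3 : 0 < k x ^ 2 := by positivity
      nlinarith [mul_pos h3 h2]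
    have hfc2 : ∀ x, f x = c := by
      intro x
      have := hkz x
      simp only [hk] at this
      linarith
    simp only [hfc2]
    refine ⟨integrable_const _, integrable_const _, ?_⟩
    simp only [integral_const, probReal_univ, one_smul]
    rw [← hA00]
    simp
  -- main case
  have hKγ : Integrable (fun x => k x ^ 2) γ := by
    rw [hγ, int_iff]
    simpa only [mul_comm] using hK
  have hKγe : ∫ x, k x ^ 2 ∂γ ≤ C1 * A := by
    rw [hγ, integral_g]
    simpa only [mul_comm] using hKe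
  have hBγ : Integrable (fun x => x ^ 2 * k x ^ 2) γ := by
    rw [hγ, int_iff]
    refine hB.congr (Eventually.of_forall fun x => ?_)
    ring
  have hBγe : ∫ x, x ^ 2 * k x ^ 2 ∂γ ≤ (4 + 2 * C1) * A := by
    rw [hγ, integral_g]
    refine le_trans (le_of_eq ?_) hBe
    congr 1
    ext x
    ring
  have hk1 : Integrable k γ := by
    refine (hKγ.add (integrable_const (1 : ℝ))).mono' hkc.aestronglyMeasurable
      (Eventually.of_forall fun x => ?_)
    simp only [Pi.add_apply, norm_eq_abs]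
    nlinarith [sq_abs (k x), sq_nonneg (|k x| - 1), abs_nonneg (k x)]
  have hf2 : Integrable (fun x => f x ^ 2) γ := by
    have : (fun x => f x ^ 2) = fun x => (k x ^ 2 + 2 * c * k x) + c ^ 2 := by
      ext x
      simp only [hk]
      ring
    rw [this]
    exact (hKγ.add (hk1.const_mul _)).add (integrable_const _)
  set t := c ^ 2 + A with ht
  have ht0 : 0 < t := by positivity
  set ψ : ℝ → ℝ := fun x => f x ^ 2 * log (f x ^ 2) - f x ^ 2 * log t - f x ^ 2 + t with hψ
  have hψm : AEStronglyMeasurable ψ γ := by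
    apply Measurable.aestronglyMeasurable
    rw [hψ]
    have := hfc.measurable
    fun_prop
  have hψ0 : ∀ x, 0 ≤ ψ x := by
    intro x
    simp only [hψ]
    rcases (sq_nonneg (f x)).eq_or_lt with h | h
    · rw [← h]; simp; exact ht0.le
    · have h1 : log (t / f x ^ 2) ≤ t / f x ^ 2 - 1 := Real.log_le_sub_one_of_pos (by positivity)
      rw [Real.log_div ht0.ne' h.ne'] at h1
      have h2 := mul_le_mul_of_nonneg_left h1 h.le
      have h3 : f x ^ 2 * (t / f x ^ 2 - 1) = t - f x ^ 2 := by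
        rw [mul_sub, mul_one, ← mul_div_assoc, mul_div_cancel_left₀ _ h.ne']
      nlinarith
  have hψb : ∀ x, ψ x ≤ 2 * A + 18 * k x ^ 2 +
      4 * (log (1 + LL) * k x ^ 2 + (1 / 2) * (x ^ 2 * k x ^ 2)) := by
    intro x
    have h1 := ptwise (c := c) (k := k x) (F := f x ^ 2) hApos ht (by simp only [hk]; ring)
    have h2 := stepE hApos (hsup x)
    have h3 := mul_le_mul_of_nonneg_left h2 (sq_nonneg (k x))
    simp only [hψ]
    nlinarith
  have hbi : Integrable (fun x => 2 * A + 18 * k x ^ 2 +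
      4 * (log (1 + LL) * k x ^ 2 + (1 / 2) * (x ^ 2 * k x ^ 2))) γ :=
    ((integrable_const _).add (hKγ.const_mul _)).add
      (((hKγ.const_mul _).add (hBγ.const_mul _)).const_mul _)
  have hψi : Integrable ψ γ := hbi.mono' hψm (Eventually.of_forall fun x => by
    rw [norm_eq_abs, abs_of_nonneg (hψ0 x)]; exact hψb x)
  have hψe : ∫ x, ψ x ∂γ ≤ C3 * A := by
    have e0 : ∫ x, (2 * A + 18 * k x ^ 2 +
        4 * (log (1 + LL) * k x ^ 2 + (1 / 2) * (x ^ 2 * k x ^ 2))) ∂γ =
        2 * A + 18 * (∫ x, k x ^ 2 ∂γ) + 4 * (log (1 + LL) * (∫ x, k x ^ 2 ∂γ) +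
          (1 / 2) * ∫ x, x ^ 2 * k x ^ 2 ∂γ) := by
      have e1 : ∫ x, ((2 * A + 18 * k x ^ 2) +
          4 * (log (1 + LL) * k x ^ 2 + (1 / 2) * (x ^ 2 * k x ^ 2))) ∂γ =
          (∫ x, (2 * A + 18 * k x ^ 2) ∂γ) +
          ∫ x, 4 * (log (1 + LL) * k x ^ 2 + (1 / 2) * (x ^ 2 * k x ^ 2)) ∂γ :=
        integral_add ((integrable_const _).add (hKγ.const_mul _))
          (((hKγ.const_mul _).add (hBγ.const_mul _)).const_mul _)
      have e2 : ∫ x, (2 * A + 18 * k x ^ 2) ∂γ = (∫ x, 2 * A ∂γ) + ∫ x, 18 * k x ^ 2 ∂γ :=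
        integral_add (integrable_const _) (hKγ.const_mul _)
      have e3 : ∫ x, (log (1 + LL) * k x ^ 2 + (1 / 2) * (x ^ 2 * k x ^ 2)) ∂γ =
          (∫ x, log (1 + LL) * k x ^ 2 ∂γ) + ∫ x, (1 / 2) * (x ^ 2 * k x ^ 2) ∂γ :=
        integral_add (hKγ.const_mul _) (hBγ.const_mul _)
      have e4 : ∫ x, 4 * (log (1 + LL) * k x ^ 2 + (1 / 2) * (x ^ 2 * k x ^ 2)) ∂γ =
          4 * ∫ x, (log (1 + LL) * k x ^ 2 + (1 / 2) * (x ^ 2 * k x ^ 2)) ∂γ :=
        integral_const_mul _ _
      have e5 : ∫ x, 18 * k x ^ 2 ∂γ = 18 * ∫ x, k x ^ 2 ∂γ := integral_const_mul _ _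
      have e6 : ∫ _x, 2 * A ∂γ = 2 * A := by simp
      rw [e1, e2, e4, e3, e5, e6, integral_const_mul, integral_const_mul]
    have hl : 0 ≤ log (1 + LL) := Real.log_nonneg (by have := LL_pos; linarith)
    calc ∫ x, ψ x ∂γ ≤ _ := integral_mono hψi hbi hψb
      _ = _ := e0
      _ ≤ 2 * A + 18 * (C1 * A) + 4 * (log (1 + LL) * (C1 * A) + (1 / 2) * ((4 + 2 * C1) * A)) := by
          gcongr
      _ = C3 * A := by unfold C3; ring
  have hFl : (fun x => f x ^ 2 * log (f x ^ 2)) =
      fun x => (ψ x + (log t + 1) * f x ^ 2) - t := by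
    ext x
    simp only [hψ]
    ring
  have hFli : Integrable (fun x => f x ^ 2 * log (f x ^ 2)) γ := by
    rw [hFl]
    exact (hψi.add (hf2.const_mul _)).sub (integrable_const _)
  refine ⟨hf2, hFli, ?_⟩
  have hFle : ∫ x, f x ^ 2 * log (f x ^ 2) ∂γ =
      (∫ x, ψ x ∂γ) + (log t + 1) * (∫ x, f x ^ 2 ∂γ) - t := by
    rw [hFl]
    have e1 : ∫ x, ((ψ x + (log t + 1) * f x ^ 2) - t) ∂γ =
        (∫ x, (ψ x + (log t + 1) * f x ^ 2) ∂γ) - ∫ x, t ∂γ :=
      integral_sub (hψi.add (hf2.const_mul _)) (integrable_const _)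
    rw [e1, integral_add hψi (hf2.const_mul _), integral_const_mul]
    simp
  rw [hFle]
  set M := ∫ x, f x ^ 2 ∂γ with hM
  have hM0 : 0 ≤ M := integral_nonneg fun x => sq_nonneg _
  have hfin : (log t + 1) * M - t - M * log M ≤ 0 := by
    rcases hM0.eq_or_lt with h | h
    · rw [← h]; simp; exact ht0.le
    · have h1 : log (t / M) ≤ t / M - 1 := Real.log_le_sub_one_of_pos (by positivity)
      rw [Real.log_div ht0.ne' h.ne'] at h1
      have h2 := mul_le_mul_of_nonneg_left h1 h.le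
      have h3 : M * (t / M - 1) = t - M := by field_simp
      nlinarith
  linarith

end Pool.Agent.R391.ZZ
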