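import Pool.Agent.R391.ZZ.Init
import Pool.Agent.R391.ZZ.KL

open MeasureTheory ProbabilityTheory Real Set Filter InformationTheory
open scoped ENNReal NNReal Topology

namespace Pool.Agent.R391.ZZ

instance : IsProbabilityMeasure rademacher := by
  constructor
  simp only [rademacher, Measure.smul_apply, Measure.coe_add, Pi.add_apply, measure_univ,
    smul_eq_mul]
  rw [one_add_one_eq_two]
  exact ENNReal.inv_mul_cancel (by norm_num) (by norm_num)

lemma rademacher_ae : ∀ᵐ x ∂rademacher, |x| = 1 := by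
  rw [rademacher, ae_iff, Measure.smul_apply, Measure.add_apply]
  rw [Measure.dirac_apply' _ (by measurability), Measure.dirac_apply' _ (by measurability)]
  simp

lemma prob_of_map {Ω α : Type*} [MeasurableSpace Ω] [MeasurableSpace α] {P : Measure Ω}
    {f : Ω → α} (hf : Measurable f) {Q : Measure α} [IsProbabilityMeasure Q] (h : P.map f = Q) :
    IsProbabilityMeasure P := by
  constructor
  have : (P.map f) univ = 1 := by rw [h]; exact measure_univ
  rwa [Measure.map_apply hf MeasurableSet.univ, preimage_univ] at this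

/-- Along a path with `|v| = 1` the position moves by at most `t`. -/
lemma zz_path {U : ℝ → ℝ} {γ x₀ v₀ : ℝ} {e : ℕ → ℝ} {x v : ℝ → ℝ} (hv : |v₀| = 1)
    (h : IsZigZagPath U γ x₀ v₀ e x v) {t : ℝ} (ht : 0 ≤ t) : |x t - x₀| ≤ t := by
  rw [h.position t ht, add_sub_cancel_left]
  have := intervalIntegral.norm_integral_le_of_norm_le_const (a := 0) (b := t) (f := v) (C := 1)
    (by
      intro s hs
      rw [uIoc_of_le ht] at hs
      rw [h.velocity s hs.1.le]
      simp [hv])
  simpa [abs_of_nonneg ht] using this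

theorem zz_no_decay {γ a lam : ℝ} (ha : 0 < a) (hl : 2 * a < lam) {Ω : Type} [MeasurableSpace Ω]
    {P : Measure Ω} {X V : ℝ → Ω → ℝ} (h : IsZigZag U2 γ ((lap a).prod rademacher) P X V) :
    ¬ ∃ C : ℝ, ∀ t, 0 ≤ t → klDiv (P.map fun ω => (X t ω, V t ω)) ((gibbs U2).prod rademacher) ≤
      ENNReal.ofReal (C * rexp (-(lam * t))) := by
  obtain ⟨E, hE, hlaw, hpath⟩ := h.clock
  have hla := lap_prob ha
  have hX := h.measX
  have hV := h.measV
  have : ∀ _ : ℕ, IsProbabilityMeasure (expMeasure 1) := fun _ =>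
    isProbabilityMeasure_expMeasure one_pos
  have hm : Measurable fun ω => ((X 0 ω, V 0 ω), fun n => E n ω) :=
    ((hX 0).prodMk (hV 0)).prodMk (measurable_pi_iff.2 hE)
  have hP : IsProbabilityMeasure P := prob_of_map hm hlaw
  rw [gibbs_U2]
  have hmt : ∀ t, Measurable fun ω => (X t ω, V t ω) := fun t => (hX t).prodMk (hV t)
  -- the initial law
  have hl0 : P.map (fun ω => (X 0 ω, V 0 ω)) = (lap a).prod rademacher := by
    have h1 : (fun ω => (X 0 ω, V 0 ω)) = Prod.fst ∘ fun ω => ((X 0 ω, V 0 ω), fun n => E n ω) :=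
      rfl
    rw [h1, ← Measure.map_map measurable_fst hm, hlaw]
    exact Measure.fst_prod
  have hX0 : P.map (X 0) = lap a := by
    have h1 : X 0 = Prod.fst ∘ fun ω => (X 0 ω, V 0 ω) := rfl
    rw [h1, ← Measure.map_map measurable_fst (hmt 0), hl0]
    exact Measure.fst_prod
  have hV0 : P.map (V 0) = rademacher := by
    have h1 : V 0 = Prod.snd ∘ fun ω => (X 0 ω, V 0 ω) := rfl
    rw [h1, ← Measure.map_map measurable_snd (hmt 0), hl0]
    exact Measure.snd_prod
  have hV1 : ∀ᵐ ω ∂P, |V 0 ω| = 1 := by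
    have := rademacher_ae
    rw [← hV0] at this
    exact ae_of_ae_map (hV 0).aemeasurable this
  refine no_decay (κ := 1 / 2) (a := 2 * a) (β := 1 / 2) (fun t => P.map fun ω => (X t ω, V t ω))
    _ (fun t _ => Measure.isProbabilityMeasure_map (hmt t).aemeasurable) (by norm_num)
    (by norm_num) hl fun t ht => ⟨Ici t ×ˢ univ, measurableSet_Ici.prod MeasurableSet.univ, ?_, ?_⟩
  · have e1 : (lap a).real (Ici (2 * t)) = 1 / 2 * rexp (-(a * (2 * t))) :=
      lap_tail ha (by linarith)
    have e2 : 1 / 2 * rexp (-(2 * a * t)) = (lap a).real (Ici (2 * t)) := by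
      rw [e1]
      congr 2
      ring
    rw [e2, ← hX0, map_measureReal_apply (hX 0) measurableSet_Ici,
      map_measureReal_apply (hmt t) (measurableSet_Ici.prod MeasurableSet.univ)]
    apply ENNReal.toReal_mono (measure_ne_top _ _)
    apply measure_mono_ae
    filter_upwards [hpath, hV1] with ω h1 h2 h3
    have h4 := abs_le.1 (zz_path h2 h1 ht.le)
    have h5 : 2 * t ≤ X 0 ω := h3
    refine ⟨?_, mem_univ _⟩
    change t ≤ X t ω
    linarith [h4.1]
  · rw [measureReal_prod_prod, probReal_univ, mul_one]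
    refine (gauss_tail ht.le).trans (le_of_eq ?_)
    congr 1
    ring

end Pool.Agent.R391.ZZ
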